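import Mathlib

/-!
# AN-05: alternating groups on overlapping sets

`c3 a b c` is the 3-cycle `a ↦ b ↦ c ↦ a`.

PROOF.
* `c3_conj`: clear (`Equiv.Perm` conjugation of swaps: `swap_apply_apply` / `Equiv.swap_conj`).
* `t3_single`: the 3-cycles with support in `{a, b, c}` are `c3 a b c` and its inverse (`c3 a b c = c3 b c a = c3 c a b`).
* `t3_merge`: Let `o ∈ A ∩ B`.  It is enough to show `c3 o x y ∈ K` for all `x ≠ y` in `A ∪ B`, both `≠ o`: an arbitrary 3-cycle is
  `c3 a b c = c3 o a b * c3 o b c` for `o ∉ {a, b, c}` (check), or has `o` among its points.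
  If `x, y ∈ A` or `x, y ∈ B` this is the hypothesis.  Let `x ∈ A \ B`, `y ∈ B \ A` (the case `x ∈ B \ A`, `y ∈ A \ B` follows by taking
  inverses).  Choose `a ∈ A`, `a ≠ o, x` and `b ∈ B`, `b ≠ o, y`.  If `a ≠ b` and `a ∉ B`... (1) if one can choose `a ≠ b` then
  `x, a, y, b` are distinct (`x ∉ B`, `y ∉ A`) and the commutator of `c3 o x a` and `c3 o y b` is
  `c3 o x y` up to orientation and inverse (`σ τ σ⁻¹ τ⁻¹` with `σ τ σ⁻¹ = c3 x y b`, and
  `c3 x y b * (c3 o y b)⁻¹ = c3 o x y` with the convention `(f * g) z = f (g z)`).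
  (2) if `a = b` then it is in `A ∩ B`, and `c3 o x y` is a product of `c3 o x a`, `c3 o a y` and their inverses (in the
  group `A_4` on `{o, x, a, y}`).
* `t3_univ`: all 3-cycles are of the form `c3 a b c`, and they generate (`closure_three_cycles_eq_alternating`).
-/

set_option autoImplicit false

namespace Pool.Agent.Helper54.AN

/-- the 3-cycle `a ↦ b ↦ c ↦ a` -/
def c3 {α : Type} [DecidableEq α] (a b c : α) : Equiv.Perm α := Equiv.swap a b * Equiv.swap b c

/-- `K` contains all 3-cycles with support in `A` -/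
def T3 {α : Type} [DecidableEq α] (K : Subgroup (Equiv.Perm α)) (A : Finset α) : Prop :=
  ∀ a ∈ A, ∀ b ∈ A, ∀ c ∈ A, a ≠ b → b ≠ c → a ≠ c → c3 a b c ∈ K

section
variable {α : Type} [DecidableEq α]

theorem c3_conj (g : Equiv.Perm α) (a b c : α) : g * c3 a b c * g⁻¹ = c3 (g a) (g b) (g c) := by
  unfold c3
  rw [Equiv.swap_apply_apply, Equiv.swap_apply_apply]
  group

private theorem c3_rot {a b c : α} (hab : a ≠ b) (hac : a ≠ c) : c3 b c a = c3 a b c := by
  unfold c3
  have h1 := Equiv.swap_mul_swap_mul_swap (x := a) (y := b) (z := c) hab hac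
  rw [← h1, ← mul_assoc, ← mul_assoc, Equiv.swap_mul_self, one_mul]

private theorem c3_inv (a b c : α) : (c3 a b c)⁻¹ = c3 c b a := by
  unfold c3
  rw [mul_inv_rev, Equiv.swap_inv, Equiv.swap_inv, Equiv.swap_comm b c, Equiv.swap_comm a b]

private theorem c3_prod {o a b c : α} (hoa : o ≠ a) (hob : o ≠ b) (hoc : o ≠ c) (hab : a ≠ b)
    (hbc : b ≠ c) (hac : a ≠ c) : c3 a b c = c3 o a b * c3 o b c := by
  have e1 : c3 o a b = Equiv.swap a b * Equiv.swap b o := by
    rw [← c3_rot hoa hob]
    rfl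
  have e2 : c3 o b c = Equiv.swap o b * Equiv.swap b c := rfl
  rw [e1, e2, Equiv.swap_comm b o, mul_assoc, ← mul_assoc (Equiv.swap o b), Equiv.swap_mul_self,
    one_mul]
  rfl

theorem t3_single {K : Subgroup (Equiv.Perm α)} {a b c : α} (hab : a ≠ b) (hbc : b ≠ c)
    (hac : a ≠ c) (h : c3 a b c ∈ K) : T3 K {a, b, c} := by
  have h1 : c3 b c a ∈ K := by rw [c3_rot hab hac]; exact h
  have h2 : c3 c a b ∈ K := by rw [c3_rot hbc hab.symm]; exact h1
  have h3 : c3 c b a ∈ K := by rw [← c3_inv]; exact K.inv_mem h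
  have h4 : c3 a c b ∈ K := by rw [← c3_inv]; exact K.inv_mem h1
  have h5 : c3 b a c ∈ K := by rw [← c3_inv]; exact K.inv_mem h2
  intro x hx y hy z hz hxy hyz hxz
  simp only [Finset.mem_insert, Finset.mem_singleton] at hx hy hz
  rcases hx with rfl | rfl | rfl <;> rcases hy with rfl | rfl | rfl <;>
    rcases hz with rfl | rfl | rfl <;>
    first | exact absurd rfl hxy | exact absurd rfl hyz | exact absurd rfl hxz | assumption

theorem t3_merge {K : Subgroup (Equiv.Perm α)} {A B : Finset α} (hA : 3 ≤ A.card)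
    (hB : 3 ≤ B.card) (hAB : (A ∩ B).Nonempty) (h1 : T3 K A) (h2 : T3 K B) : T3 K (A ∪ B) := by
  obtain ⟨o, ho⟩ := hAB
  rw [Finset.mem_inter] at ho
  obtain ⟨hoA, hoB⟩ := ho
  -- one point in each set
  have key : ∀ x ∈ A, x ∉ B → ∀ y ∈ B, y ∉ A → x ≠ o → y ≠ o → c3 o x y ∈ K := by
    intro x hxA hxB y hyB hyA hxo hyo
    have hxy : x ≠ y := by
      rintro rfl
      exact hxB hyB
    obtain ⟨a, haA, haox⟩ : ∃ a ∈ A, a ∉ ({o, x} : Finset α) := by
      by_contra hcon
      push Not at hcon
      have h3 := Finset.card_le_card (show A ⊆ {o, x} from fun a ha => hcon a ha)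
      have h4 := Finset.card_le_two (a := o) (b := x)
      omega
    obtain ⟨b, hbB, hboy⟩ : ∃ b ∈ B, b ∉ ({o, y} : Finset α) := by
      by_contra hcon
      push Not at hcon
      have h3 := Finset.card_le_card (show B ⊆ {o, y} from fun a ha => hcon a ha)
      have h4 := Finset.card_le_two (a := o) (b := y)
      omega
    simp only [Finset.mem_insert, Finset.mem_singleton, not_or] at haox hboy
    by_cases hab : a = b
    · subst hab
      have e1 : c3 o x y = c3 a y o * c3 a o x := by
        rw [← c3_prod hboy.2 haox.1 haox.2 hyo hxo.symm hxy.symm, c3_rot hyo hxy.symm]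
      rw [e1]
      exact K.mul_mem (h2 a hbB y hyB o hoB hboy.2 hyo haox.1)
        (h1 a haA o hoA x hxA haox.1 hxo.symm haox.2)
    · have hya : y ≠ a := by
        rintro rfl
        exact hyA haA
      have hxb : x ≠ b := by
        rintro rfl
        exact hxB hbB
      have m1 : c3 o x a ∈ K := h1 o hoA x hxA a haA hxo.symm (Ne.symm haox.2) (Ne.symm haox.1)
      have m2 : c3 o y b ∈ K := h2 o hoB y hyB b hbB hyo.symm (Ne.symm hboy.2) (Ne.symm hboy.1)
      have m3 : c3 x y b ∈ K := by
        have h3 := K.mul_mem (K.mul_mem m1 m2) (K.inv_mem m1)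
        rw [c3_conj] at h3
        have e1 : c3 o x a o = x := by
          unfold c3
          rw [Equiv.Perm.mul_apply, Equiv.swap_apply_of_ne_of_ne hxo.symm (Ne.symm haox.1),
            Equiv.swap_apply_left]
        have e2 : c3 o x a y = y := by
          unfold c3
          rw [Equiv.Perm.mul_apply, Equiv.swap_apply_of_ne_of_ne hxy.symm hya,
            Equiv.swap_apply_of_ne_of_ne hyo hxy.symm]
        have e3 : c3 o x a b = b := by
          unfold c3
          rw [Equiv.Perm.mul_apply, Equiv.swap_apply_of_ne_of_ne hxb.symm (Ne.symm hab),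
            Equiv.swap_apply_of_ne_of_ne hboy.1 hxb.symm]
        rw [e1, e2, e3] at h3
        exact h3
      have m4 : c3 b y o ∈ K := by
        rw [← c3_inv]
        exact K.inv_mem m2
      have m5 : c3 b x y ∈ K := by
        rw [← c3_rot hxb.symm hboy.2]
        exact m3
      have e1 : c3 o x y = c3 b x y * c3 b y o := by
        rw [← c3_prod hxb.symm hboy.2 hboy.1 hxy hyo hxo, c3_rot hxo.symm hyo.symm]
      rw [e1]
      exact K.mul_mem m5 m4
  -- the 3-cycles through `o`
  have key2 : ∀ x ∈ A ∪ B, ∀ y ∈ A ∪ B, x ≠ o → y ≠ o → x ≠ y → c3 o x y ∈ K := by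
    intro x hx y hy hxo hyo hxy
    by_cases hxyA : x ∈ A ∧ y ∈ A
    · exact h1 o hoA x hxyA.1 y hxyA.2 hxo.symm hxy hyo.symm
    by_cases hxyB : x ∈ B ∧ y ∈ B
    · exact h2 o hoB x hxyB.1 y hxyB.2 hxo.symm hxy hyo.symm
    rw [Finset.mem_union] at hx hy
    by_cases hxA : x ∈ A
    · have hyA : y ∉ A := fun h => hxyA ⟨hxA, h⟩
      have hyB : y ∈ B := hy.resolve_left hyA
      have hxB : x ∉ B := fun h => hxyB ⟨h, hyB⟩
      exact key x hxA hxB y hyB hyA hxo hyo
    · have hxB : x ∈ B := hx.resolve_left hxA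
      have hyB : y ∉ B := fun h => hxyB ⟨hxB, h⟩
      have hyA : y ∈ A := hy.resolve_right hyB
      have h3 := K.inv_mem (key y hyA hyB x hxB hxA hyo hxo)
      rw [c3_inv, c3_rot hxo.symm hyo.symm] at h3
      exact h3
  intro a ha b hb c hc hab hbc hac
  by_cases hoa : o = a
  · subst hoa
    exact key2 b hb c hc hab.symm hac.symm hbc
  by_cases hob : o = b
  · subst hob
    rw [← c3_rot hab hac]
    exact key2 c hc a ha hbc.symm hab hac.symm
  by_cases hoc : o = c
  · subst hoc
    rw [c3_rot hac.symm hbc.symm]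
    exact key2 a ha b hb hac hbc hab
  rw [c3_prod hoa hob hoc hab hbc hac]
  exact K.mul_mem (key2 a ha b hb (Ne.symm hoa) (Ne.symm hob) hab)
    (key2 b hb c hc (Ne.symm hob) (Ne.symm hoc) hbc)

private theorem t3_isThreeCycle_aux {K : Subgroup (Equiv.Perm α)} [Fintype α] {A : Finset α} :
    T3 K A ↔ ∀ g : Equiv.Perm α, g.IsThreeCycle → g.support ⊆ A → g ∈ K := by
  constructor
  · intro h g hg hgA
    obtain ⟨a, ha⟩ : g.support.Nonempty := by
      rw [← Finset.card_pos, hg.card_support]
      norm_num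
    have h1 := (hg.eq_swap_mul_swap_iff_mem_support).2 ha
    have hga : g a ∈ g.support := Equiv.Perm.apply_mem_support.2 ha
    have hgga : g (g a) ∈ g.support := Equiv.Perm.apply_mem_support.2 hga
    have h2 := (hg.nodup_iff_mem_support (a := a)).2 ha
    simp only [List.nodup_cons, List.mem_cons, List.not_mem_nil, or_false, not_or,
      List.nodup_nil, not_false_eq_true, and_true] at h2
    rw [h1]
    exact h a (hgA ha) (g a) (hgA hga) (g (g a)) (hgA hgga) h2.1.1 h2.2 h2.1.2
  · intro h a ha b hb c hc hab hbc hac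
    apply h
    · unfold c3
      rw [Equiv.swap_comm a b]
      exact Equiv.Perm.isThreeCycle_swap_mul_swap_same hab.symm hbc hac
    · intro z hz
      rw [Equiv.Perm.mem_support] at hz
      by_contra hzA
      apply hz
      have hza : z ≠ a := by
        rintro rfl
        exact hzA ha
      have hzb : z ≠ b := by
        rintro rfl
        exact hzA hb
      have hzc : z ≠ c := by
        rintro rfl
        exact hzA hc
      unfold c3
      rw [Equiv.Perm.mul_apply, Equiv.swap_apply_of_ne_of_ne hzb hzc,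
        Equiv.swap_apply_of_ne_of_ne hza hzb]

theorem t3_univ [Fintype α] {K : Subgroup (Equiv.Perm α)} (h : T3 K Finset.univ) :
    alternatingGroup α ≤ K := by
  rw [← Equiv.Perm.closure_three_cycles_eq_alternating, Subgroup.closure_le]
  intro g hg
  exact t3_isThreeCycle_aux.1 h g hg (Finset.subset_univ _)

theorem t3_isThreeCycle {K : Subgroup (Equiv.Perm α)} [Fintype α] {A : Finset α} :
    T3 K A ↔ ∀ g : Equiv.Perm α, g.IsThreeCycle → g.support ⊆ A → g ∈ K :=
  t3_isThreeCycle_aux

end

end Pool.Agent.Helper54.AN
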