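import Pool.Agent.Helper54.AN.Inner
import Pool.Agent.Helper54.AN.Merge

/-!
# AN-07: two orbits of length p

PROOF.  Let `K` be the image of `JJ k (zpowers x)` in `Perm α`.  For `t : ℕ` let `τ t = swap (x^t c) (x^t d)`; `τ (t + p) = τ t`;
the `τ t`, `t < p`, have disjoint supports (the orbits of `c` and `d` are disjoint and have `p` elements), so they commute,
`τ t ^ 2 = 1`, and `x (τ t) x⁻¹ = τ (t+1)`.  Let `Q` be the subgroup of `alternatingGroup α` of all elements whose image is in the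
closure of the `τ t`: it is commutative, every element has square `1`, so its order is a power of `2`, prime to `p`, and it is
normalized by `x`.  `q = τ 1 * τ 2 * ... * τ (p-1)` is even (`p - 1` is even), so `q ∈ Q`, and
`q⁻¹ (x q x⁻¹) = (τ 1 ... τ (p-1)) (τ 2 ... τ p) = τ 1 * τ 0`.  By `jj_comm_pprime` (`P = zpowers x`), `τ 0 τ 1 ∈ K`.
Choose `v ≠ w` in `C`, different from `c` and `x c` (`p ≥ 5`).  Conjugating `c3 c v w ∈ K` with `τ 0 τ 1` gives `c3 d v w ∈ K`
(`c3_conj`).  `t3_single`: `T3 K {d, v, w}`; `t3_merge` with `C` (common points `v, w`): `T3 K (C ∪ {d, v, w})`; `t3_merge` with `D` (common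
point `d`): `T3 K (C ∪ D)`.
-/

set_option autoImplicit false
open scoped Pointwise
open Pool.Agent.Helper54.PW Pool.Agent.Helper54.RT

namespace Pool.Agent.Helper54.AN

theorem alt_mix {p : ℕ} [Fact p.Prime] (hp5 : 5 ≤ p) {k : Type} [Field k]
    [IsAlgClosed k] [CharP k p] {α : Type} [Fintype α] [DecidableEq α] (x : alternatingGroup α)
    (hx : orderOf x = p) (c d : α) (hc : (x : Equiv.Perm α) c ≠ c)
    (hd : (x : Equiv.Perm α) d ≠ d) (hcd : ∀ n : ℕ, ((x : Equiv.Perm α) ^ n) c ≠ d)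
    (C D : Finset α) (hC : C = (Finset.range p).image fun n => ((x : Equiv.Perm α) ^ n) c)
    (hD : D = (Finset.range p).image fun n => ((x : Equiv.Perm α) ^ n) d)
    (h1 : T3 ((JJ k (Subgroup.zpowers x)).map (alternatingGroup α).subtype) C)
    (h2 : T3 ((JJ k (Subgroup.zpowers x)).map (alternatingGroup α).subtype) D) :
    T3 ((JJ k (Subgroup.zpowers x)).map (alternatingGroup α).subtype) (C ∪ D) := by
  classical
  have hp : p.Prime := Fact.out
  obtain ⟨X, hX⟩ : ∃ X : Equiv.Perm α, X = (x : Equiv.Perm α) := ⟨_, rfl⟩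
  rw [← hX] at hc hd hcd hC hD
  obtain ⟨K, hK⟩ : ∃ K : Subgroup (Equiv.Perm α),
    K = (JJ k (Subgroup.zpowers x)).map (alternatingGroup α).subtype := ⟨_, rfl⟩
  rw [← hK] at h1 h2 ⊢
  have hXo : orderOf X = p := by rw [hX, Subgroup.orderOf_coe, hx]
  have hXp : X ^ p = 1 := by rw [← hXo, pow_orderOf_eq_one]
  -- the two orbits
  have horb : ∀ {e : α}, X e ≠ e → ∀ {s t : ℕ}, s ≤ t → (X ^ s) e = (X ^ t) e → p ∣ t - s := by
    intro e he s t hst h
    by_contra hnd
    have h3 : (X ^ (t - s)) e = e := by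
      apply (X ^ s).injective
      rw [← Equiv.Perm.mul_apply, ← pow_add, Nat.add_sub_cancel' hst, h]
    obtain ⟨m, hm⟩ := exists_pow_eq_self_of_coprime (x := X) (n := t - s) (by
      rw [hXo]
      exact ((Nat.Prime.coprime_iff_not_dvd hp).2 hnd).symm)
    apply he
    have h4 : ∀ m : ℕ, ((X ^ (t - s)) ^ m) e = e := by
      intro m
      induction m with
      | zero => rfl
      | succ m ih => rw [pow_succ, Equiv.Perm.mul_apply, h3, ih]
    have h5 := h4 m
    rwa [hm] at h5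
  have horb2 : ∀ {e : α}, X e ≠ e → ∀ {s t : ℕ}, (X ^ s) e = (X ^ t) e → X ^ s = X ^ t := by
    intro e he s t h
    rcases le_total s t with hst | hst
    · obtain ⟨m, hm⟩ := horb he hst h
      have h3 : t = s + p * m := by omega
      rw [h3, pow_add, pow_mul, hXp, one_pow, mul_one]
    · obtain ⟨m, hm⟩ := horb he hst h.symm
      have h3 : s = t + p * m := by omega
      rw [h3, pow_add, pow_mul, hXp, one_pow, mul_one]
  have hlt : ∀ {e : α}, X e ≠ e → ∀ {s t : ℕ}, s < t → t < p → (X ^ s) e ≠ (X ^ t) e := by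
    intro e he s t hst htp h
    have := Nat.le_of_dvd (by omega) (horb he hst.le h)
    omega
  have hcd2 : ∀ s t : ℕ, (X ^ s) c ≠ (X ^ t) d := by
    intro s t h
    apply hcd (t * (p - 1) + s)
    rw [pow_add, Equiv.Perm.mul_apply, h, ← Equiv.Perm.mul_apply, ← pow_add]
    have h3 : t * (p - 1) + t = p * t := by
      have : p = (p - 1) + 1 := by omega
      calc t * (p - 1) + t = ((p - 1) + 1) * t := by ring
        _ = p * t := by rw [← this]
    rw [h3, pow_mul, hXp, one_pow]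
    rfl
  -- the transpositions
  obtain ⟨τ, hτ⟩ : ∃ τ : ℕ → Equiv.Perm α, ∀ t, τ t = Equiv.swap ((X ^ t) c) ((X ^ t) d) :=
    ⟨fun t => Equiv.swap ((X ^ t) c) ((X ^ t) d), fun t => rfl⟩
  have hτsq : ∀ t, τ t * τ t = 1 := fun t => by rw [hτ, Equiv.swap_mul_self]
  have hτX : ∀ t, X * τ t * X⁻¹ = τ (t + 1) := by
    intro t
    rw [hτ, hτ, ← Equiv.swap_apply_apply, pow_succ']
    rfl
  have hτX' : ∀ t, X⁻¹ * τ t * X⁻¹⁻¹ = τ (t + (p - 1)) := by
    intro t
    have h3 : X ^ (t + (p - 1)) = X⁻¹ * X ^ t := by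
      rw [eq_inv_mul_iff_mul_eq, ← pow_succ']
      have : t + (p - 1) + 1 = t + p := by omega
      rw [this, pow_add, hXp, mul_one]
    rw [hτ, hτ, ← Equiv.swap_apply_apply, h3]
    rfl
  have hτcomm : ∀ s t, τ s * τ t = τ t * τ s := by
    intro s t
    by_cases hst : (X ^ s) c = (X ^ t) c
    · have h3 := horb2 hc hst
      rw [hτ, hτ, h3]
    · have hst' : (X ^ s) d ≠ (X ^ t) d := by
        intro h
        apply hst
        rw [horb2 hd h]
      rw [hτ, hτ]
      have h3 : Equiv.swap ((X ^ s) c) ((X ^ s) d) * Equiv.swap ((X ^ t) c) ((X ^ t) d) *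
          (Equiv.swap ((X ^ s) c) ((X ^ s) d))⁻¹ = Equiv.swap ((X ^ t) c) ((X ^ t) d) := by
        rw [← Equiv.swap_apply_apply, Equiv.swap_apply_of_ne_of_ne (Ne.symm hst) (hcd2 t s),
          Equiv.swap_apply_of_ne_of_ne (Ne.symm (hcd2 s t)) (Ne.symm hst')]
      exact mul_inv_eq_iff_eq_mul.1 h3
  obtain ⟨S, hS⟩ : ∃ S : Subgroup (Equiv.Perm α), S = Subgroup.closure (Set.range τ) := ⟨_, rfl⟩
  have hτS : ∀ t, τ t ∈ S := fun t => by
    rw [hS]
    exact Subgroup.subset_closure ⟨t, rfl⟩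
  have hScomm : ∀ g ∈ S, ∀ h ∈ S, g * h = h * g := by
    intro g hg h hh
    rw [hS] at hg hh
    induction hg, hh using Subgroup.closure_induction₂ with
    | mem x y hx hy =>
      obtain ⟨s, rfl⟩ := hx
      obtain ⟨t, rfl⟩ := hy
      exact hτcomm s t
    | one_left => rw [one_mul, mul_one]
    | one_right => rw [one_mul, mul_one]
    | mul_left x y z hx hy hz h1 h2 => exact (Commute.mul_left h1 h2)
    | mul_right y z x hy hz hx h1 h2 => exact (Commute.mul_right h1 h2)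
    | inv_left x y hx hy h => exact Commute.inv_left h
    | inv_right x y hx hy h => exact Commute.inv_right h
  have hSsq : ∀ g ∈ S, g * g = 1 := by
    intro g hg
    have hg' := hg
    rw [hS] at hg'
    induction hg' using Subgroup.closure_induction with
    | mem x hx =>
      obtain ⟨s, rfl⟩ := hx
      exact hτsq s
    | one => rw [one_mul]
    | mul x y hx hy ihx ihy =>
      rw [← hS] at hx hy
      have h3 := hScomm x hx y hy
      calc x * y * (x * y) = x * (y * x) * y := by group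
        _ = x * (x * y) * y := by rw [h3]
        _ = (x * x) * (y * y) := by group
        _ = 1 := by rw [ihx hx, ihy hy, one_mul]
    | inv x hx ih =>
      rw [← hS] at hx
      rw [← mul_inv_rev, ih hx, inv_one]
  have hSconj : ∀ Y : Equiv.Perm α, (∀ t, Y * τ t * Y⁻¹ ∈ S) → ∀ g ∈ S, Y * g * Y⁻¹ ∈ S := by
    intro Y hY g hg
    have h3 : S ≤ S.comap (MulAut.conj Y).toMonoidHom := by
      conv_lhs => rw [hS]
      rw [Subgroup.closure_le]
      rintro _ ⟨t, rfl⟩
      exact hY t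
    exact h3 hg
  -- the group `Q`
  obtain ⟨Q, hQ⟩ : ∃ Q : Subgroup (alternatingGroup α), Q = S.comap (alternatingGroup α).subtype :=
    ⟨_, rfl⟩
  have hQmem : ∀ g : alternatingGroup α, g ∈ Q ↔ (g : Equiv.Perm α) ∈ S := by
    intro g
    rw [hQ]
    rfl
  have hQcomm : ∀ a b : Q, a * b = b * a := by
    intro a b
    apply Subtype.ext
    apply Subtype.ext
    exact hScomm _ ((hQmem _).1 a.2) _ ((hQmem _).1 b.2)
  have hQ2 : IsPGroup 2 Q := by
    intro a
    refine ⟨1, ?_⟩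
    apply Subtype.ext
    apply Subtype.ext
    show ((a : alternatingGroup α) : Equiv.Perm α) ^ (2 ^ 1) = 1
    rw [pow_one, sq]
    exact hSsq _ ((hQmem _).1 a.2)
  have hQp : ¬ p ∣ Nat.card Q := by
    have : Fact (Nat.Prime 2) := ⟨Nat.prime_two⟩
    obtain ⟨m, hm⟩ := IsPGroup.iff_card.1 hQ2
    rw [hm]
    intro h
    have h3 := (Nat.prime_dvd_prime_iff_eq hp Nat.prime_two).1 (hp.dvd_of_dvd_pow h)
    omega
  have hQs : Group.IsSolvable Q := Group.isSolvable_of_comm hQcomm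
  have hP : IsPGroup p (Subgroup.zpowers x) := by
    apply IsPGroup.of_card (n := 1)
    rw [Nat.card_zpowers, hx, pow_one]
  have hxQ : x ∈ Subgroup.normalizer (Q : Set (alternatingGroup α)) := by
    rw [Subgroup.mem_normalizer_iff]
    intro h
    rw [hQmem, hQmem]
    have e1 : ((x * h * x⁻¹ : alternatingGroup α) : Equiv.Perm α) = X * h * X⁻¹ := by
      rw [hX]
      rfl
    rw [e1]
    constructor
    · intro hh
      exact hSconj X (fun t => by rw [hτX]; exact hτS _) _ hh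
    · intro hh
      have h3 := hSconj X⁻¹ (fun t => by rw [hτX']; exact hτS _) _ hh
      have h4 : X⁻¹ * (X * h * X⁻¹) * X⁻¹⁻¹ = h := by group
      rwa [h4] at h3
  have hsgn : Equiv.Perm.sign (τ 0 * τ 1) = 1 := by
    rw [map_mul, hτ, hτ, Equiv.Perm.sign_swap (hcd2 0 0), Equiv.Perm.sign_swap (hcd2 1 1)]
    rfl
  obtain ⟨q, hq⟩ : ∃ q : alternatingGroup α, (q : Equiv.Perm α) = τ 0 * τ 1 :=
    ⟨⟨τ 0 * τ 1, Equiv.Perm.mem_alternatingGroup.2 hsgn⟩, rfl⟩
  have hqQ : q ∈ Q := by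
    rw [hQmem, hq]
    exact S.mul_mem (hτS 0) (hτS 1)
  have hmem := jj_comm_pprime (k := k) hP hQp hQs x (Subgroup.mem_zpowers x) hxQ q hqQ
  have hg : τ 0 * τ 2 ∈ K := by
    rw [hK]
    refine ⟨q⁻¹ * (x * q * x⁻¹), hmem, ?_⟩
    show ((q⁻¹ * (x * q * x⁻¹) : alternatingGroup α) : Equiv.Perm α) = τ 0 * τ 2
    have e1 : ((q⁻¹ * (x * q * x⁻¹) : alternatingGroup α) : Equiv.Perm α) =
        (q : Equiv.Perm α)⁻¹ * (X * q * X⁻¹) := by
      rw [hX]
      rfl
    have e2 : X * (τ 0 * τ 1) * X⁻¹ = τ 1 * τ 2 := by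
      have e4 : X * (τ 0 * τ 1) * X⁻¹ = (X * τ 0 * X⁻¹) * (X * τ 1 * X⁻¹) := by group
      rw [e4, hτX, hτX]
    have e3 : (τ 0 * τ 1)⁻¹ = τ 0 * τ 1 := by
      rw [inv_eq_iff_mul_eq_one]
      exact hSsq _ (S.mul_mem (hτS 0) (hτS 1))
    rw [e1, hq, e2, e3, mul_assoc, ← mul_assoc (τ 1), hτsq, one_mul]
  -- the points
  have hmC : ∀ n, n < p → (X ^ n) c ∈ C := by
    intro n hn
    rw [hC]
    exact Finset.mem_image.2 ⟨n, Finset.mem_range.2 hn, rfl⟩
  have hmD : ∀ n, n < p → (X ^ n) d ∈ D := by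
    intro n hn
    rw [hD]
    exact Finset.mem_image.2 ⟨n, Finset.mem_range.2 hn, rfl⟩
  have hcC : c ∈ C := hmC 0 (by omega)
  have hdD : d ∈ D := hmD 0 (by omega)
  obtain ⟨v, hv⟩ : ∃ v : α, v = (X ^ 1) c := ⟨_, rfl⟩
  obtain ⟨w, hw⟩ : ∃ w : α, w = (X ^ 3) c := ⟨_, rfl⟩
  have hvC : v ∈ C := by rw [hv]; exact hmC 1 (by omega)
  have hwC : w ∈ C := by rw [hw]; exact hmC 3 (by omega)
  have hcv : c ≠ v := by rw [hv]; exact hlt hc (s := 0) (by norm_num) (by omega)
  have hcw : c ≠ w := by rw [hw]; exact hlt hc (s := 0) (by norm_num) (by omega)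
  have hvw : v ≠ w := by rw [hv, hw]; exact hlt hc (by norm_num) (by omega)
  have hvd : v ≠ d := by rw [hv]; exact hcd2 1 0
  have hwd : w ≠ d := by rw [hw]; exact hcd2 3 0
  have m1 : c3 c v w ∈ K := h1 c hcC v hvC w hwC hcv hvw hcw
  have m2 : c3 d v w ∈ K := by
    have h3 := K.mul_mem (K.mul_mem hg m1) (K.inv_mem hg)
    rw [c3_conj] at h3
    have t0 : τ 0 = Equiv.swap c d := hτ 0
    have e2 : ∀ z : α, z ≠ (X ^ 2) c → z ≠ (X ^ 2) d → τ 2 z = z := by
      intro z hz1 hz2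
      rw [hτ, Equiv.swap_apply_of_ne_of_ne hz1 hz2]
    have e3 : (τ 0 * τ 2) c = d := by
      rw [Equiv.Perm.mul_apply, e2 c (hlt hc (s := 0) (by norm_num) (by omega)) (hcd2 0 2), t0,
        Equiv.swap_apply_left]
    have e4 : (τ 0 * τ 2) v = v := by
      rw [Equiv.Perm.mul_apply, e2 v (by rw [hv]; exact hlt hc (by norm_num) (by omega))
        (by rw [hv]; exact hcd2 1 2), t0, Equiv.swap_apply_of_ne_of_ne hcv.symm hvd]
    have e5 : (τ 0 * τ 2) w = w := by
      rw [Equiv.Perm.mul_apply, e2 w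
        (by rw [hw]; exact (hlt hc (s := 2) (by norm_num) (by omega)).symm)
        (by rw [hw]; exact hcd2 3 2), t0, Equiv.swap_apply_of_ne_of_ne hcw.symm hwd]
    rw [e3, e4, e5] at h3
    exact h3
  have m3 : T3 K {d, v, w} := t3_single (Ne.symm hvd) hvw (Ne.symm hwd) m2
  have hcard3 : ∀ {A : Finset α} {a b e : α}, a ∈ A → b ∈ A → e ∈ A → a ≠ b → b ≠ e → a ≠ e →
      3 ≤ A.card := by
    intro A a b e ha hb he hab hbe hae
    have h3 : ({a, b, e} : Finset α) ⊆ A := by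
      intro z hz
      simp only [Finset.mem_insert, Finset.mem_singleton] at hz
      rcases hz with rfl | rfl | rfl <;> assumption
    have h4 := Finset.card_le_card h3
    rwa [Finset.card_eq_three.2 ⟨a, b, e, hab, hae, hbe, rfl⟩] at h4
  have hCc : 3 ≤ C.card := hcard3 hcC hvC hwC hcv hvw hcw
  have hDc : 3 ≤ D.card := hcard3 hdD (hmD 1 (by omega)) (hmD 2 (by omega))
    (hlt hd (s := 0) (by norm_num) (by omega)) (hlt hd (by norm_num) (by omega))
    (hlt hd (s := 0) (by norm_num) (by omega))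
  have hBc : 3 ≤ ({d, v, w} : Finset α).card :=
    hcard3 (a := d) (b := v) (e := w) (by simp) (by simp) (by simp) (Ne.symm hvd) hvw
      (Ne.symm hwd)
  have m4 : T3 K (C ∪ {d, v, w}) :=
    t3_merge hCc hBc ⟨v, Finset.mem_inter.2 ⟨hvC, by simp⟩⟩ h1 m3
  have m5 : T3 K (C ∪ {d, v, w} ∪ D) :=
    t3_merge (hCc.trans (Finset.card_le_card Finset.subset_union_left)) hDc
      ⟨d, Finset.mem_inter.2 ⟨Finset.mem_union_right _ (by simp), hdD⟩⟩ m4 h2
  have e6 : C ∪ {d, v, w} ∪ D = C ∪ D := by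
    ext z
    simp only [Finset.mem_union, Finset.mem_insert, Finset.mem_singleton]
    constructor
    · rintro ((h | h | h | h) | h)
      · exact Or.inl h
      · rw [h]; exact Or.inr hdD
      · rw [h]; exact Or.inl hvC
      · rw [h]; exact Or.inl hwC
      · exact Or.inr h
    · rintro (h | h)
      · exact Or.inl (Or.inl h)
      · exact Or.inr h
  rw [e6] at m5
  exact m5

end Pool.Agent.Helper54.AN
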