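import Pool.Agent.Helper54.AN.AltSub
import Pool.Agent.Helper54.AN.Mix

/-!
# AN-08: alternating groups with an inertia group of order p

PROOF.  Let `K` be the image of `JJ k (zpowers x)` in `Perm α`.  `x ≠ 1`, so there is `c` with `x c ≠ c`; let `C` be its orbit,
`C = {x^n c : n < p}`, `|C| = p` (`x^p = 1`, `p` prime).  `T3 K C` by `alt_sub_le_jj`.  Let `A` be a finset of maximal
cardinality with `C ⊆ A` and `T3 K A`.  Suppose `a ∉ A`.  If `x a = a`, `alt_sub_le_jj` for `C ∪ {a}` (`p + 1` points) and `t3_merge` give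
`T3 K (A ∪ {a})`, a contradiction.  If `x a ≠ a` let `D` be its orbit (`p` points, `T3 K D`), disjoint from `C`; `alt_mix` gives
`T3 K (C ∪ D)` and `t3_merge` gives `T3 K (A ∪ D)`, a contradiction.  So `A = univ` and by `t3_univ`, `JJ k (zpowers x) = ⊤`; `jj_top`.
-/

set_option autoImplicit false
open scoped Pointwise
open Pool.Agent.Helper54.PW Pool.Agent.Helper54.RT

namespace Pool.Agent.Helper54.AN

private def orb {α : Type} [DecidableEq α] (g : Equiv.Perm α) (p : ℕ) (c : α) : Finset α :=
  (Finset.range p).image fun n => (g ^ n) c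

private lemma mem_orb_self {α : Type} [DecidableEq α] (g : Equiv.Perm α) {p : ℕ} (hp : 0 < p)
    (c : α) : c ∈ orb g p c :=
  Finset.mem_image.mpr ⟨0, Finset.mem_range.mpr hp, rfl⟩

private lemma orb_closed {α : Type} [DecidableEq α] {g : Equiv.Perm α} {p : ℕ} (hp : 0 < p)
    (hg : g ^ p = 1) (c : α) : ∀ a ∈ orb g p c, g a ∈ orb g p c := by
  intro a ha
  obtain ⟨n, hn, rfl⟩ := Finset.mem_image.mp ha
  rw [Finset.mem_range] at hn
  have h1 : g ((g ^ n) c) = (g ^ (n + 1)) c := by rw [pow_succ', Equiv.Perm.mul_apply]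
  rw [h1]
  by_cases h : n + 1 < p
  · exact Finset.mem_image.mpr ⟨n + 1, Finset.mem_range.mpr h, rfl⟩
  · have h2 : n + 1 = p := by omega
    rw [h2, hg]
    exact mem_orb_self g hp c

private lemma pow_mem_orb {α : Type} [DecidableEq α] {g : Equiv.Perm α} {p : ℕ} (hp : 0 < p)
    (hg : g ^ p = 1) (c : α) (n : ℕ) : (g ^ n) c ∈ orb g p c := by
  induction n with
  | zero => exact mem_orb_self g hp c
  | succ n ih =>
    rw [pow_succ', Equiv.Perm.mul_apply]
    exact orb_closed hp hg c _ ih

private lemma orb_card {α : Type} [DecidableEq α] {g : Equiv.Perm α} {p : ℕ} (hp : p.Prime)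
    (hg : g ^ p = 1) {c : α} (hc : g c ≠ c) : (orb g p c).card = p := by
  unfold orb
  rw [Finset.card_image_of_injOn, Finset.card_range]
  have key : ∀ i j : ℕ, i < j → j < p → (g ^ i) c ≠ (g ^ j) c := by
    intro i j hij hj h
    apply hc
    have h1 : (g ^ (j - i)) c = c := by
      have h2 : (g ^ j) c = (g ^ i) ((g ^ (j - i)) c) := by
        rw [← Equiv.Perm.mul_apply, ← pow_add]
        congr 2
        omega
      rw [h2] at h
      exact ((g ^ i).injective h).symm
    have h3 : Function.IsPeriodicPt g (j - i) c := by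
      unfold Function.IsPeriodicPt Function.IsFixedPt
      rw [← Equiv.Perm.coe_pow]
      exact h1
    have h4 : Function.IsPeriodicPt g p c := by
      unfold Function.IsPeriodicPt Function.IsFixedPt
      rw [← Equiv.Perm.coe_pow, hg]
      rfl
    have h5 := h3.gcd h4
    have h6 : Nat.gcd (j - i) p = 1 := by
      apply Nat.Coprime.symm
      exact (Nat.Prime.coprime_iff_not_dvd hp).mpr
        (Nat.not_dvd_of_pos_of_lt (by omega) (by omega))
    rw [h6] at h5
    exact h5
  intro i hi j hj h
  rw [Finset.coe_range, Set.mem_Iio] at hi hj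
  rcases lt_trichotomy i j with h1 | h1 | h1
  · exact absurd h (key i j h1 hj)
  · exact h1
  · exact absurd h.symm (key j i h1 hi)

theorem realAct_alt {p : ℕ} [Fact p.Prime] (hp5 : 5 ≤ p) {k : Type} [Field k]
    [IsAlgClosed k] [CharP k p] {α : Type} [Fintype α] [DecidableEq α] (x : alternatingGroup α)
    (hx : orderOf x = p) : RealAct k (Subgroup.zpowers x) := by
  classical
  have hp : p.Prime := Fact.out
  have hp0 : 0 < p := hp.pos
  obtain ⟨K, hK⟩ : ∃ K, K = (JJ k (Subgroup.zpowers x)).map (alternatingGroup α).subtype :=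
    ⟨_, rfl⟩
  obtain ⟨g, hgx⟩ : ∃ g : Equiv.Perm α, g = (x : Equiv.Perm α) := ⟨_, rfl⟩
  have hg : g ^ p = 1 := by
    have h1 : x ^ p = 1 := by rw [← hx]; exact pow_orderOf_eq_one x
    rw [hgx, ← Subgroup.coe_pow, h1]
    rfl
  have hg1 : ∃ c, g c ≠ c := by
    by_contra h
    push Not at h
    have h1 : g = 1 := Equiv.ext h
    have h2 : x = 1 := Subtype.ext (by rw [← hgx, h1]; rfl)
    rw [h2, orderOf_one] at hx
    omega
  have hP : IsPGroup p (Subgroup.zpowers x) := by
    apply IsPGroup.of_card (n := 1)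
    rw [Nat.card_zpowers, hx, pow_one]
  obtain ⟨c, hc⟩ := hg1
  have hT : ∀ d, g d ≠ d → T3 K (orb g p d) := by
    intro d hd
    rw [hK]
    refine alt_sub_le_jj hp5 x hx _ (Or.inl (orb_card hp hg hd)) ?_ ?_
    · rw [← hgx]; exact orb_closed hp0 hg d
    · rw [← hgx]; exact ⟨d, mem_orb_self g hp0 d, hd⟩
  have hC := hT c hc
  have hCc := orb_card hp hg hc
  obtain ⟨A, hA, hmax⟩ := Finset.exists_max_image
    ((Finset.univ : Finset (Finset α)).filter fun A => orb g p c ⊆ A ∧ T3 K A) Finset.card
    ⟨orb g p c, by simp [hC]⟩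
  obtain ⟨-, hCA, hTA⟩ := Finset.mem_filter.mp hA
  have hA3 : 3 ≤ A.card := by
    have := Finset.card_le_card hCA
    omega
  have hgrow : ∀ B : Finset α, orb g p c ⊆ B → T3 K B → B ⊆ A := by
    intro B hCB hB
    have hB3 : 3 ≤ B.card := by
      have := Finset.card_le_card hCB
      omega
    have h1 : T3 K (A ∪ B) := t3_merge hA3 hB3
      ⟨c, Finset.mem_inter.mpr ⟨hCA (mem_orb_self g hp0 c), hCB (mem_orb_self g hp0 c)⟩⟩ hTA hB
    have h2 := hmax (A ∪ B) (Finset.mem_filter.mpr ⟨Finset.mem_univ _,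
      hCA.trans Finset.subset_union_left, h1⟩)
    have h3 : A = A ∪ B := Finset.eq_of_subset_of_card_le Finset.subset_union_left h2
    rw [h3]
    exact Finset.subset_union_right
  have hAuniv : A = Finset.univ := by
    rw [Finset.eq_univ_iff_forall]
    intro a
    by_contra ha
    have haC : a ∉ orb g p c := fun h => ha (hCA h)
    by_cases hga : g a = a
    · have h1 : T3 K (insert a (orb g p c)) := by
        rw [hK]
        refine alt_sub_le_jj hp5 x hx _ (Or.inr ?_) ?_ ?_
        · rw [Finset.card_insert_of_notMem haC, hCc]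
        · rw [← hgx]
          intro b hb
          rcases Finset.mem_insert.mp hb with h | h
          · rw [h, hga]
            exact Finset.mem_insert_self _ _
          · exact Finset.mem_insert_of_mem (orb_closed hp0 hg c b h)
        · rw [← hgx]
          exact ⟨c, Finset.mem_insert_of_mem (mem_orb_self g hp0 c), hc⟩
      exact ha (hgrow _ (Finset.subset_insert _ _) h1 (Finset.mem_insert_self _ _))
    · have hD := hT a hga
      have h1 : T3 K (orb g p c ∪ orb g p a) := by
        rw [hK] at hC hD ⊢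
        rw [hgx] at hc hga hC hD
        rw [hgx]
        refine alt_mix hp5 x hx c a hc hga ?_ _ _ rfl rfl hC hD
        intro n hn
        apply haC
        rw [hgx, ← hn, ← hgx]
        exact pow_mem_orb hp0 hg c n
      exact ha (hgrow _ Finset.subset_union_left h1
        (Finset.mem_union_right _ (mem_orb_self g hp0 a)))
  rw [hAuniv] at hTA
  have h1 := t3_univ hTA
  apply jj_top hP
  rw [eq_top_iff]
  intro y _
  have h2 : (y : Equiv.Perm α) ∈ K := h1 y.2
  rw [hK] at h2
  obtain ⟨z, hz, e⟩ := h2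
  have h3 : z = y := Subtype.ext e
  rw [← h3]
  exact hz

end Pool.Agent.Helper54.AN
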