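import Pool.Agent.Helper54.RT.PPrime

/-!
# AN-04: inner automorphisms; commutators with p'-subgroups

PROOF.
* `aa_of_inner`: `MulAut.conj : S → MulAut S` is injective (its kernel is the center), so `S ≃* range`, and
  `range ⊔ zpowers (MulAut.conj s) = range`; `ra_iso`.
* `jj_comm_pprime`: let `P1 = zpowers x ≤ P`, `A = Q ⊔ P1`.  `A` is solvable (`Q` is normalized by `x`), and `P1.relIndex A`
  divides `|Q|`, so it is prime to `p`.  `jj_sylow_solvable` for `P1`: `A ≤ JJ k P1 ⊔ N(P1)`, and `N(P1)` normalizes `JJ k P1`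
  (`jj_normalizer`), so `q = m n` with `m ∈ JJ k P1`, `n ∈ N(P1)`.  `q⁻¹ (x q x⁻¹) = n⁻¹ (m⁻¹ x m) n * x⁻¹`, where
  `m⁻¹ x m ∈ JJ k P1` (`x ∈ JJ k P1` by `le_jj`), so this is in `JJ k P1 ≤ JJ k P` (`jj_mono`).
* `jj_mono`: clear from the definition.
-/

set_option autoImplicit false
open scoped Pointwise
open Pool.Agent.Helper54.PW Pool.Agent.Helper54.SJ

namespace Pool.Agent.Helper54.RT

theorem aa_of_inner {k : Type} [Field k] {S : Type} [Group S] (hc : Subgroup.center S = ⊥)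
    (s : S) (h : RealAct k (Subgroup.zpowers s)) : AA k (MulAut.conj s) := by
  unfold AA
  obtain ⟨K, hK⟩ : ∃ K : Subgroup (MulAut S),
      K = (MulAut.conj : S →* MulAut S).range ⊔ Subgroup.zpowers (MulAut.conj s) := ⟨_, rfl⟩
  rw [← hK]
  have hKr : K ≤ (MulAut.conj : S →* MulAut S).range := by
    rw [hK]
    refine sup_le (le_refl _) ?_
    rw [Subgroup.zpowers_le]
    exact ⟨s, rfl⟩
  have hmem : ∀ x : S, MulAut.conj x ∈ K := by
    intro x
    rw [hK]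
    exact Subgroup.mem_sup_left ⟨x, rfl⟩
  let f : S →* K := (MulAut.conj : S →* MulAut S).codRestrict K hmem
  have hf : Function.Surjective f := by
    rintro ⟨y, hy⟩
    obtain ⟨x, hx⟩ := hKr hy
    exact ⟨x, Subtype.ext hx⟩
  have h1 := ra_map f hf h
  have h2 : (Subgroup.zpowers s).map f = (Subgroup.zpowers (MulAut.conj s)).subgroupOf K := by
    rw [MonoidHom.map_zpowers]
    ext x
    rw [Subgroup.mem_subgroupOf, Subgroup.mem_zpowers_iff, Subgroup.mem_zpowers_iff]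
    constructor
    · rintro ⟨n, hn⟩
      exact ⟨n, by rw [← hn]; rfl⟩
    · rintro ⟨n, hn⟩
      exact ⟨n, Subtype.ext hn⟩
  rwa [h2] at h1

theorem jj_mono {k : Type} [Field k] {G : Type} [Group G] {P1 P : Subgroup G} (h : P1 ≤ P) :
    JJ k P1 ≤ JJ k P := by
  unfold JJ
  refine sup_le (le_trans h le_sup_left) (sSup_le ?_)
  rintro H ⟨P2, hP2, hH⟩
  have h1 : H ∈ {H : Subgroup G | ∃ P1 ≤ P, RealAct k (P1.subgroupOf H)} :=
    ⟨P2, le_trans hP2 h, hH⟩
  exact le_trans (le_sSup h1) le_sup_right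

private theorem in_solv {G : Type} [Group G] {Q P1 : Subgroup G}
    (hn : P1 ≤ Subgroup.normalizer (Q : Set G)) (hQ : Group.IsSolvable Q)
    (hP : Group.IsSolvable P1) : Group.IsSolvable (Q ⊔ P1 : Subgroup G) := by
  have hQn : (Q.subgroupOf (Q ⊔ P1)).Normal := by
    refine ⟨fun x hx g => ?_⟩
    rw [Subgroup.mem_subgroupOf] at hx ⊢
    have h1 : Q ⊔ P1 ≤ Subgroup.normalizer (Q : Set G) := sup_le Subgroup.le_normalizer hn
    exact (Subgroup.mem_normalizer_iff.1 (h1 g.2) x).1 hx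
  let φ : P1 →* (Q ⊔ P1 : Subgroup G) ⧸ Q.subgroupOf (Q ⊔ P1) :=
    (QuotientGroup.mk' _).comp (Subgroup.inclusion (le_sup_right : P1 ≤ Q ⊔ P1))
  have hφ : Function.Surjective φ := by
    have h1 : Q ⊔ P1 ≤ (φ.range.comap (QuotientGroup.mk' (Q.subgroupOf (Q ⊔ P1)))).map
        (Q ⊔ P1 : Subgroup G).subtype := by
      refine sup_le ?_ ?_
      · intro q hq
        refine ⟨⟨q, Subgroup.mem_sup_left hq⟩, ?_, rfl⟩
        rw [SetLike.mem_coe, Subgroup.mem_comap]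
        have h2 : (QuotientGroup.mk' (Q.subgroupOf (Q ⊔ P1))) ⟨q, Subgroup.mem_sup_left hq⟩ = 1 := by
          rw [← MonoidHom.mem_ker, QuotientGroup.ker_mk', Subgroup.mem_subgroupOf]
          exact hq
        rw [h2]
        exact Subgroup.one_mem _
      · intro x hx
        refine ⟨⟨x, Subgroup.mem_sup_right hx⟩, ?_, rfl⟩
        rw [SetLike.mem_coe, Subgroup.mem_comap]
        exact ⟨⟨x, hx⟩, rfl⟩
    intro y
    obtain ⟨x, rfl⟩ := QuotientGroup.mk'_surjective _ y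
    obtain ⟨z, hz, hzx⟩ := h1 x.2
    have h3 : z = x := Subtype.ext hzx
    rw [h3] at hz
    exact hz
  have h4 : Group.IsSolvable ((Q ⊔ P1 : Subgroup G) ⧸ Q.subgroupOf (Q ⊔ P1)) :=
    Group.isSolvable_of_surjective hφ
  refine Group.isSolvable_of_ker_le_range
    (Subgroup.inclusion (le_sup_left : Q ≤ Q ⊔ P1))
    (QuotientGroup.mk' (Q.subgroupOf (Q ⊔ P1))) ?_
  rw [QuotientGroup.ker_mk']
  intro x hx
  rw [Subgroup.mem_subgroupOf] at hx
  exact ⟨⟨x, hx⟩, rfl⟩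

private theorem in_card {G : Type} [Group G] {H K : Subgroup G} (h : H ≤ K) :
    Nat.card H * H.relIndex K = Nat.card K := by
  have h1 := Subgroup.relIndex_mul_relIndex (⊥ : Subgroup G) H K bot_le h
  rwa [Subgroup.relIndex_bot_left, Subgroup.relIndex_bot_left] at h1

private theorem in_index {G : Type} [Group G] [Finite G] {Q P1 : Subgroup G}
    (hn : P1 ≤ Subgroup.normalizer (Q : Set G)) : P1.relIndex (Q ⊔ P1) ∣ Nat.card Q := by
  have hQn : (Q.subgroupOf (Q ⊔ P1)).Normal := by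
    refine ⟨fun x hx g => ?_⟩
    rw [Subgroup.mem_subgroupOf] at hx ⊢
    have h1 : Q ⊔ P1 ≤ Subgroup.normalizer (Q : Set G) := sup_le Subgroup.le_normalizer hn
    exact (Subgroup.mem_normalizer_iff.1 (h1 g.2) x).1 hx
  have h1 : (Q.subgroupOf (Q ⊔ P1)).relIndex (P1.subgroupOf (Q ⊔ P1) ⊔ Q.subgroupOf (Q ⊔ P1)) =
      (Q.subgroupOf (Q ⊔ P1)).relIndex (P1.subgroupOf (Q ⊔ P1)) :=
    Subgroup.relIndex_sup_right _ _
  have htop : P1.subgroupOf (Q ⊔ P1) ⊔ Q.subgroupOf (Q ⊔ P1) = ⊤ := by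
    rw [← Subgroup.subgroupOf_sup le_sup_right le_sup_left, sup_comm P1 Q,
      Subgroup.subgroupOf_self]
  rw [htop, Subgroup.relIndex_top_right,
    Subgroup.relIndex_subgroupOf (le_sup_right : P1 ≤ Q ⊔ P1)] at h1
  have h2 : (Q.subgroupOf (Q ⊔ P1)).index = Q.relIndex (Q ⊔ P1) := rfl
  rw [h2] at h1
  have h3 : Nat.card Q * Q.relIndex (Q ⊔ P1) = Nat.card (Q ⊔ P1 : Subgroup G) :=
    in_card le_sup_left
  have h4 : Nat.card P1 * P1.relIndex (Q ⊔ P1) = Nat.card (Q ⊔ P1 : Subgroup G) :=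
    in_card le_sup_right
  have h5 : Nat.card (Q ⊓ P1 : Subgroup G) * (Q ⊓ P1).relIndex P1 = Nat.card P1 :=
    in_card inf_le_right
  rw [Subgroup.inf_relIndex_right] at h5
  have hpos : 0 < Q.relIndex P1 := by
    rcases Nat.eq_zero_or_pos (Q.relIndex P1) with h6 | h6
    · exfalso
      rw [h6, mul_zero] at h5
      have : 0 < Nat.card P1 := Nat.card_pos
      omega
    · exact h6
  refine ⟨Nat.card (Q ⊓ P1 : Subgroup G), ?_⟩
  apply Nat.eq_of_mul_eq_mul_right hpos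
  rw [h1] at h3
  rw [h3, ← h4, ← h5]
  ring

theorem jj_comm_pprime {p : ℕ} [Fact p.Prime] {k : Type} [Field k] [IsAlgClosed k] [CharP k p]
    {G : Type} [Group G] [Finite G] {P Q : Subgroup G} (hP : IsPGroup p P)
    (hQ : ¬ p ∣ Nat.card Q) (hs : Group.IsSolvable Q) (x : G) (hx : x ∈ P)
    (hxQ : x ∈ Subgroup.normalizer (Q : Set G)) (q : G) (hq : q ∈ Q) :
    q⁻¹ * (x * q * x⁻¹) ∈ JJ k P := by
  have hle : Subgroup.zpowers x ≤ P := by
    rw [Subgroup.zpowers_le]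
    exact hx
  have hP1 : IsPGroup p (Subgroup.zpowers x) := hP.to_le hle
  have hn : Subgroup.zpowers x ≤ Subgroup.normalizer (Q : Set G) := by
    rw [Subgroup.zpowers_le]
    exact hxQ
  have hsP : Group.IsSolvable (Subgroup.zpowers x) := by
    have := hP1.isNilpotent
    exact inferInstance
  have h1 := jj_sylow_solvable (k := k) (P := Subgroup.zpowers x) (A := Q ⊔ Subgroup.zpowers x)
    hP1 le_sup_right (in_solv hn hs hsP) (fun h => hQ (dvd_trans h (in_index hn)))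
  have h2 : q ∈ JJ k (Subgroup.zpowers x) ⊔
      Subgroup.normalizer ((Subgroup.zpowers x : Subgroup G) : Set G) :=
    h1 (Subgroup.mem_sup_left hq)
  have h3 := jj_normalizer (k := k) (Subgroup.zpowers x)
  have h4 : (q : G) ∈ ((JJ k (Subgroup.zpowers x) ⊔
      Subgroup.normalizer ((Subgroup.zpowers x : Subgroup G) : Set G) : Subgroup G) : Set G) := h2
  rw [Subgroup.coe_mul_of_right_le_normalizer_left _ _ h3] at h4
  obtain ⟨m, hm, n, hn2, rfl⟩ := h4
  have hxJ : x ∈ JJ k (Subgroup.zpowers x) := le_jj _ (Subgroup.mem_zpowers x)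
  have hm' : m ∈ JJ k (Subgroup.zpowers x) := hm
  have h5 : m⁻¹ * x * m ∈ JJ k (Subgroup.zpowers x) :=
    Subgroup.mul_mem _ (Subgroup.mul_mem _ (Subgroup.inv_mem _ hm') hxJ) hm'
  have h6 : n⁻¹ * (m⁻¹ * x * m) * n⁻¹⁻¹ ∈ JJ k (Subgroup.zpowers x) :=
    (Subgroup.mem_normalizer_iff.1 (Subgroup.inv_mem _ (h3 hn2)) _).1 h5
  have h7 : (m * n)⁻¹ * (x * (m * n) * x⁻¹) = n⁻¹ * (m⁻¹ * x * m) * n⁻¹⁻¹ * x⁻¹ := by group
  apply jj_mono hle
  change (m * n)⁻¹ * (x * (m * n) * x⁻¹) ∈ JJ k (Subgroup.zpowers x)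
  rw [h7]
  exact Subgroup.mul_mem _ h6 (Subgroup.inv_mem _ hxJ)

end Pool.Agent.Helper54.RT
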