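import Pool.Agent.Helper54.AN.Ap1
import Pool.Agent.Helper54.AN.Inner
import Pool.Agent.Helper54.AN.Merge
import Pool.Agent.Helper54.RT.CaseA

/-!
# AN-06: the alternating groups on an orbit, and on an orbit and a fixed point

PROOF.  Let `S` be the range of `alternatingGroup.ofSubtype A : alternatingGroup A →* alternatingGroup α`, `P = zpowers x`.
`S ≃* alternatingGroup A` is simple (`alternatingGroup.isSimpleGroup`, `|A| ≥ 5`), nonabelian, with trivial center
(`alternatingGroup.center_eq_bot`).  `x` maps `A` to `A`, so it normalizes `S` (`alternatingGroup.conj_smul_range_ofSubtype`).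
Let `xA` be the element of `alternatingGroup α` which is `x` on `A` and the identity outside `A` (it has order `p`, odd, so it is
even, and it is in `S`); `x` and `xA` act on `S` by conjugation in the same way.  `xA ≠ 1` by `hne`, so its order is `p`.
`caseA` with `y = x` (`x^p = 1`): for `α' : MulAut S` as there, `α' = MulAut.conj xA`, and `aa_of_inner` with
`RealAct k (zpowers xA)` in `S`: `realAct_alt_small` for `alternatingGroup A` and `ra_iso`.  (`x` does not centralize `S`: otherwise
`xA` would be in the center of `S`.)  So `S ≤ JJ k P`, and every 3-cycle with support in `A` is in `S`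
(`alternatingGroup.mem_range_ofSubtype_iff`); use `t3_isThreeCycle`.
-/

set_option autoImplicit false
open scoped Pointwise
open Pool.Agent.Helper54.PW Pool.Agent.Helper54.RT

namespace Pool.Agent.Helper54.AN

/-- the center is trivial if it is for an isomorphic group -/
private theorem center_bot_of_equiv {G G' : Type} [Group G] [Group G'] (e : G ≃* G')
    (h : Subgroup.center G = ⊥) : Subgroup.center G' = ⊥ := by
  rw [eq_bot_iff]
  intro z hz
  have h1 : e.symm z ∈ Subgroup.center G := by
    rw [Subgroup.mem_center_iff]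
    intro g
    have h2 := Subgroup.mem_center_iff.mp hz (e g)
    have h3 := congrArg e.symm h2
    rwa [map_mul, map_mul, e.symm_apply_apply] at h3
  rw [h, Subgroup.mem_bot] at h1
  rw [Subgroup.mem_bot]
  exact (MulEquiv.map_eq_one_iff e.symm).mp h1

theorem alt_sub_le_jj {p : ℕ} [Fact p.Prime] (hp5 : 5 ≤ p) {k : Type} [Field k]
    [IsAlgClosed k] [CharP k p] {α : Type} [Fintype α] [DecidableEq α] (x : alternatingGroup α)
    (hx : orderOf x = p) (A : Finset α) (hA : A.card = p ∨ A.card = p + 1)
    (hxA : ∀ a ∈ A, (x : Equiv.Perm α) a ∈ A) (hne : ∃ a ∈ A, (x : Equiv.Perm α) a ≠ a) :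
    T3 ((JJ k (Subgroup.zpowers x)).map (alternatingGroup α).subtype) A := by
  classical
  have hp2 : p ≠ 2 := by omega
  have hpp : p.Prime := Fact.out
  have hcard : 5 ≤ A.card := by omega
  have hNc : Nat.card A = A.card := by
    rw [Nat.card_eq_fintype_card, Fintype.card_coe]
  -- the action of `x` on `A`
  have hxAiff : ∀ a, (x : Equiv.Perm α) a ∈ A ↔ a ∈ A := by
    intro a
    refine ⟨fun h => ?_, hxA a⟩
    have himg : A.image (x : Equiv.Perm α) = A := by
      apply Finset.eq_of_subset_of_card_le
      · intro b hb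
        obtain ⟨c, hc, rfl⟩ := Finset.mem_image.mp hb
        exact hxA c hc
      · rw [Finset.card_image_of_injective _ (Equiv.injective _)]
    have h1 : (x : Equiv.Perm α) a ∈ A.image (x : Equiv.Perm α) := by rw [himg]; exact h
    obtain ⟨c, hc, hce⟩ := Finset.mem_image.mp h1
    rwa [← (x : Equiv.Perm α).injective hce]
  set f : Equiv.Perm A := (x : Equiv.Perm α).subtypePerm (p := (· ∈ A)) hxAiff with hf
  have hxp : (x : Equiv.Perm α) ^ p = 1 := by
    have h1 : x ^ p = 1 := by rw [← hx]; exact pow_orderOf_eq_one x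
    have h2 := congrArg (Subtype.val) h1
    simpa using h2
  have hfp : f ^ p = 1 := by
    rw [hf, Equiv.Perm.subtypePerm_pow]
    apply Equiv.ext
    intro a
    apply Subtype.ext
    rw [Equiv.Perm.subtypePerm_apply]
    simp [hxp]
  have hfs : Equiv.Perm.sign f = 1 := by
    have h1 : (Equiv.Perm.sign f) ^ p = 1 := by rw [← map_pow, hfp, map_one]
    rcases Int.units_eq_one_or (Equiv.Perm.sign f) with h | h
    · exact h
    · rw [h, Odd.neg_one_pow (hpp.odd_of_ne_two hp2)] at h1
      exact absurd h1 (by decide)
  set σ : alternatingGroup A := ⟨f, Equiv.Perm.mem_alternatingGroup.mpr hfs⟩ with hσ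
  have hσp : σ ^ p = 1 := by
    apply Subtype.ext
    rw [SubmonoidClass.coe_pow]
    exact hfp
  have hfapp : ∀ a : A, ((f a : A) : α) = (x : Equiv.Perm α) a := fun a => rfl
  have hσ1 : σ ≠ 1 := by
    intro h
    obtain ⟨a, ha, hne'⟩ := hne
    apply hne'
    have h1 : f = 1 := congrArg Subtype.val h
    have h2 := hfapp ⟨a, ha⟩
    rw [h1] at h2
    exact h2.symm
  have hσo : orderOf σ = p := orderOf_eq_prime hσp hσ1
  -- the subgroup `S`
  set S : Subgroup (alternatingGroup α) := (alternatingGroup.ofSubtype A).range with hS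
  set e : alternatingGroup A ≃* S :=
    MonoidHom.ofInjective (alternatingGroup.ofSubtype_injective (s := A)) with he
  have hmemS : ∀ g : alternatingGroup α, g ∈ S ↔ (g : Equiv.Perm α).support ⊆ A := fun g =>
    alternatingGroup.mem_range_ofSubtype_iff A g
  have hRσ : RealAct k (Subgroup.zpowers σ) := by
    refine TJ.realAct_alt_small hp5 ?_ σ hσo
    rw [Fintype.card_coe]
    exact hA
  set xS : S := e σ with hxS
  have hRx : RealAct k (Subgroup.zpowers xS) := by
    have h1 := (ra_iso (k := k) e (P := Subgroup.zpowers σ)).mpr hRσ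
    rw [MonoidHom.map_zpowers] at h1
    exact h1
  have hcenA : Subgroup.center (alternatingGroup A) = ⊥ :=
    alternatingGroup.center_eq_bot (by omega)
  have hcen : Subgroup.center S = ⊥ := center_bot_of_equiv e hcenA
  have hsimA : IsSimpleGroup (alternatingGroup A) := alternatingGroup.isSimpleGroup (by omega)
  have hsim : IsSimpleGroup S := (MulEquiv.isSimpleGroup_congr e).mp hsimA
  have hna : ∃ a b : S, a * b ≠ b * a := by
    by_contra hcon
    push Not at hcon
    have h1 : Subgroup.center S = ⊤ := by
      rw [eq_top_iff]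
      intro z _
      rw [Subgroup.mem_center_iff]
      intro g
      exact hcon g z
    rw [hcen] at h1
    have : Nontrivial S := hsim.toNontrivial
    exact bot_ne_top h1
  -- values of `xS`
  have hxSval : ((xS : alternatingGroup α) : Equiv.Perm α) = Equiv.Perm.ofSubtype f := rfl
  have hxSin : ∀ a ∈ A, ((xS : alternatingGroup α) : Equiv.Perm α) a = (x : Equiv.Perm α) a := by
    intro a ha
    rw [hxSval, Equiv.Perm.ofSubtype_apply_of_mem f ha]
    rfl
  have hxSout : ∀ a, a ∉ A → ((xS : alternatingGroup α) : Equiv.Perm α) a = a := by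
    intro a ha
    rw [hxSval, Equiv.Perm.ofSubtype_apply_of_not_mem f ha]
  -- conjugation with `x` and with `xS` agree on `S`
  have hconj : ∀ s : S, x * (s : alternatingGroup α) * x⁻¹ =
      (xS : alternatingGroup α) * s * (xS : alternatingGroup α)⁻¹ := by
    intro s
    have hsupp : ((s : alternatingGroup α) : Equiv.Perm α).support ⊆ A := (hmemS _).mp s.2
    have hsout : ∀ a, a ∉ A → ((s : alternatingGroup α) : Equiv.Perm α) a = a := by
      intro a ha
      by_contra hcon
      exact ha (hsupp (Equiv.Perm.mem_support.mpr hcon))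
    have hsin : ∀ a ∈ A, ((s : alternatingGroup α) : Equiv.Perm α) a ∈ A := by
      intro a ha
      by_contra hcon
      have h1 := hsout _ hcon
      have h2 := ((s : alternatingGroup α) : Equiv.Perm α).injective h1
      rw [h2] at hcon
      exact hcon ha
    have hkey : (xS : alternatingGroup α)⁻¹ * x * s = s * ((xS : alternatingGroup α)⁻¹ * x) := by
      apply Subtype.ext
      apply Equiv.ext
      intro a
      change (((xS : alternatingGroup α) : Equiv.Perm α)⁻¹) ((x : Equiv.Perm α)
        (((s : alternatingGroup α) : Equiv.Perm α) a)) =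
        ((s : alternatingGroup α) : Equiv.Perm α)
          ((((xS : alternatingGroup α) : Equiv.Perm α)⁻¹) ((x : Equiv.Perm α) a))
      by_cases ha : a ∈ A
      · rw [← hxSin _ (hsin a ha), ← hxSin a ha]; erw [Equiv.symm_apply_apply, Equiv.symm_apply_apply]

      · have h1 : (x : Equiv.Perm α) a ∉ A := fun h => ha ((hxAiff a).mp h)
        have h2 : (((xS : alternatingGroup α) : Equiv.Perm α)⁻¹) ((x : Equiv.Perm α) a) =
            (x : Equiv.Perm α) a := by
          rw [Equiv.Perm.inv_eq_iff_eq]
          exact (hxSout _ h1).symm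
        rw [hsout a ha, h2, hsout _ h1]
    calc x * (s : alternatingGroup α) * x⁻¹
        = (xS : alternatingGroup α) * ((xS : alternatingGroup α)⁻¹ * x * s) * x⁻¹ := by group
      _ = (xS : alternatingGroup α) * s * (xS : alternatingGroup α)⁻¹ := by
          rw [hkey]; group
  have hxSS : ∀ s ∈ S, x * s * x⁻¹ ∈ S := by
    intro s hs
    rw [hconj ⟨s, hs⟩]
    exact S.mul_mem (S.mul_mem xS.2 hs) (S.inv_mem xS.2)
  have hxn : x ∈ Subgroup.normalizer (S : Set (alternatingGroup α)) := by
    rw [Subgroup.mem_normalizer_iff]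
    intro s
    refine ⟨hxSS s, fun h => ?_⟩
    rw [hmemS] at h ⊢
    intro a ha
    rw [Equiv.Perm.mem_support] at ha
    rw [← hxAiff a]
    apply h
    rw [Equiv.Perm.mem_support]
    change (x : Equiv.Perm α) ((s : Equiv.Perm α) ((x : Equiv.Perm α)⁻¹ ((x : Equiv.Perm α) a))) ≠
      (x : Equiv.Perm α) a
    erw [Equiv.symm_apply_apply]
    exact fun h => ha ((x : Equiv.Perm α).injective h)
  have hnc : ∃ s ∈ S, x * s * x⁻¹ ≠ s := by
    by_contra hcon
    push Not at hcon
    have h1 : xS ∈ Subgroup.center S := by
      rw [Subgroup.mem_center_iff]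
      intro g
      apply Subtype.ext
      have h2 := hcon g g.2
      rw [hconj g] at h2
      exact (mul_inv_eq_iff_eq_mul.mp h2).symm
    rw [hcen, Subgroup.mem_bot] at h1
    exact hσ1 ((MulEquiv.map_eq_one_iff e).mp h1)
  have hPp : IsPGroup p (Subgroup.zpowers x) := by
    apply IsPGroup.of_card (n := 1)
    rw [Nat.card_zpowers, hx, pow_one]
  have hxpow : x ^ p = 1 := by rw [← hx]; exact pow_orderOf_eq_one x
  have hle : S ≤ JJ k (Subgroup.zpowers x) := by
    refine caseA hPp hsim hna x (Subgroup.mem_zpowers x) hxn hnc ?_ ?_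
    · intro s _
      rw [hxpow, one_mul, inv_one, mul_one]
    · intro α' _ hα'
      have h1 : α' = MulAut.conj xS := by
        ext s
        rw [hα', hconj]
        rfl
      rw [h1]
      exact aa_of_inner hcen xS hRx
  rw [t3_isThreeCycle]
  intro g hg hgA
  have hgalt : g ∈ alternatingGroup α := hg.mem_alternatingGroup
  exact ⟨⟨g, hgalt⟩, hle ((hmemS _).mpr hgA), rfl⟩

end Pool.Agent.Helper54.AN
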