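import Pool.Agent.Helper54.TRI.Exists
import Pool.Agent.Helper54.TRI.PermRep
import Pool.Agent.Helper54.TRI.Even
import Pool.Agent.Helper54.TRI.Finite
import Pool.Agent.Helper54.TRI.InfStab
import Pool.Agent.Helper54.TRI.InfTrans
import Pool.Agent.Helper54.TRI.Swap
import Pool.Agent.Helper54.TRI.Group
import Pool.Agent.Helper54.RT.Bridge

/-!
# AN-02: the cover with group `A_p`

PROOF.  `tri_exists` gives `L` and the roots `r`.  As in `realAct_sl2` (Helper54/SL/Main.lean) make `L` a `k`-algebra, `hF : FF k L`,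
and take a place `A` of `L` at infinity (`exists_infinite_place`).  `tri_perm` gives `ρ`, injective; by `tri_even` its values
are even.  Let `H` be its range: transitive by `tri_inf_trans`; normalized by the transposition `s` of `tri_swap` (for
`σ' = δ σ δ⁻¹`: `ρ σ' = s (ρ σ) s⁻¹`).  By `tri_group`, `H` is the alternating group.  So there is an isomorphism
`ρ' : Gal(L) ≃* alternatingGroup (Fin p)`.  Finite places: if `σ A' = A'` then `σ` fixes all roots (`tri_finite`), so `σ = 1`.
`D = {σ : σ A = A}` acts transitively on the roots (`tri_inf_trans`), and an element of `D` with a fixed root is trivial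
(`tri_inf_stab`), so `|D| = p`.  So `RealAct k P` for `P = ρ'(D)` of order `p`.  The order of `alternatingGroup (Fin p)` is `p!/2`,
which is divisible by `p` exactly once, so `P` and `zpowers τ` are Sylow subgroups and `zpowers τ = g P g⁻¹`; `ra_iso` for
`MulAut.conj g`.
-/

set_option autoImplicit false
open scoped Pointwise
open Pool.Agent.Helper54.PW Pool.Agent.Helper54.RT

namespace Pool.Agent.Helper54.TJ

theorem factorization_alternating {p : ℕ} [Fact p.Prime] (hp5 : 5 ≤ p) :
    (Nat.card (alternatingGroup (Fin p))).factorization p = 1 := by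
  have hp : p.Prime := Fact.out
  have : Nontrivial (Fin p) := Fin.nontrivial_iff_two_le.2 (by omega)
  have h1 := two_mul_nat_card_alternatingGroup (α := Fin p)
  rw [Nat.card_perm, Nat.card_eq_fintype_card (α := Fin p), Fintype.card_fin] at h1
  have h2 : Nat.card (alternatingGroup (Fin p)) ≠ 0 := Nat.card_pos.ne'
  have h3 : p.factorial = p * (p - 1).factorial := (Nat.mul_factorial_pred hp.ne_zero).symm
  have h4 : (2 * Nat.card (alternatingGroup (Fin p))).factorization p =
      (p * (p - 1).factorial).factorization p := by rw [h1, h3]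
  rw [Nat.factorization_mul two_ne_zero h2,
    Nat.factorization_mul hp.ne_zero (Nat.factorial_ne_zero _)] at h4
  have h5 : (2 : ℕ).factorization p = 0 := by
    apply Nat.factorization_eq_zero_of_not_dvd
    intro h
    have := Nat.le_of_dvd (by norm_num) h
    omega
  have h6 : ((p - 1).factorial).factorization p = 0 := by
    apply Nat.factorization_eq_zero_of_not_dvd
    intro h
    have := (hp.dvd_factorial).1 h
    omega
  have h7 : p.factorization p = 1 := hp.factorization_self
  simp only [Finsupp.add_apply, h5, h6, h7] at h4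
  omega

theorem realAct_Ap {p : ℕ} [Fact p.Prime] (hp5 : 5 ≤ p) {k : Type} [Field k] [IsAlgClosed k]
    [CharP k p] (τ : alternatingGroup (Fin p)) (hτ : orderOf τ = p) :
    RealAct k (Subgroup.zpowers τ) := by
  classical
  have hp : p.Prime := Fact.out
  have : NeZero p := ⟨by omega⟩
  obtain ⟨L, instL, instA, hfd, hgal, r, hinj, hroot, hall, hgen, hprod, hder⟩ :=
    tri_exists hp5 k
  let _ : Algebra k L := ((algebraMap (RatFunc k) L).comp (algebraMap k (RatFunc k))).toAlgebra
  have : IsScalarTower k (RatFunc k) L := IsScalarTower.of_algebraMap_eq fun _ => rfl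
  have hFF : FF k L := ff_of_algebraic k L
  obtain ⟨A, hA, hX⟩ := Pool.Agent.Helper54.SL.exists_infinite_place k L
  obtain ⟨ρ, hρinj, hρ⟩ := tri_perm r hinj hroot hall hgen hp5
  have heven : ∀ σ, Equiv.Perm.sign (ρ σ) = 1 := fun σ =>
    tri_even r hinj hprod hder hp5 σ (ρ σ) (hρ σ)
  obtain ⟨δ, s, hs, hδ, hδσ⟩ := tri_swap r hinj hroot hall hgen hp5
  -- the image
  have hH : alternatingGroup (Fin p) ≤ ρ.range := by
    refine tri_group hp5 ρ.range ?_ s hs ?_
    · intro i j
      obtain ⟨σ, -, h2⟩ := tri_inf_trans r hinj hroot hall hp5 hFF A hA hX i j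
      refine ⟨ρ σ, ⟨σ, rfl⟩, ?_⟩
      apply hinj
      rw [← hρ, h2]
    · rintro _ ⟨σ, rfl⟩
      obtain ⟨σ', hσ'⟩ := hδσ σ
      refine ⟨σ', ?_⟩
      ext1 i
      apply hinj
      rw [← hρ, hσ']
      have h1 : δ.symm (r i) = r (s⁻¹ i) := by
        rw [RingEquiv.symm_apply_eq, hδ]
        congr 1
        exact (s.apply_symm_apply i).symm
      rw [h1, hρ, hδ]
      rfl
  let ρ' : (L ≃ₐ[RatFunc k] L) →* alternatingGroup (Fin p) :=
    ρ.codRestrict _ fun σ => Equiv.Perm.mem_alternatingGroup.2 (heven σ)
  have hρ'v : ∀ σ, ((ρ' σ : alternatingGroup (Fin p)) : Equiv.Perm (Fin p)) = ρ σ := fun _ => rfl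
  have hρ'inj : Function.Injective ρ' := by
    intro a b h
    apply hρinj
    rw [← hρ'v, ← hρ'v, h]
  have hρ'surj : Function.Surjective ρ' := by
    intro g
    obtain ⟨σ, hσ⟩ := hH g.2
    exact ⟨σ, Subtype.ext hσ⟩
  have hfixall : ∀ σ : L ≃ₐ[RatFunc k] L, (∀ i, σ (r i) = r i) → σ = 1 := by
    intro σ h
    apply hρinj
    rw [map_one]
    ext1 i
    apply hinj
    rw [← hρ, h i]
    rfl
  -- the decomposition group
  let D : Subgroup (L ≃ₐ[RatFunc k] L) := MulAction.stabilizer _ A
  have hDmem : ∀ σ, σ ∈ D ↔ σ • A = A := fun σ => MulAction.mem_stabilizer_iff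
  have hDcard : Nat.card D = p := by
    have hb : Function.Bijective (fun σ : D => ρ σ.1 0) := by
      constructor
      · rintro ⟨a, ha⟩ ⟨b, hb⟩ hab
        have hab' : ρ a 0 = ρ b 0 := hab
        have h1 : (b⁻¹ * a) • A = A := (hDmem _).1 (D.mul_mem (D.inv_mem hb) ha)
        have h2 : (b⁻¹ * a) (r 0) = r 0 := by
          rw [hρ, map_mul, map_inv, Equiv.Perm.mul_apply, hab']
          congr 1
          exact (ρ b).symm_apply_apply 0
        have h3 : b⁻¹ * a = 1 := by
          apply hfixall
          intro i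
          exact tri_inf_stab r hinj hroot hp5 hFF A hA hX (b⁻¹ * a) h1
            (fun i => ⟨_, hρ _ i⟩) 0 h2 i
        exact Subtype.ext (inv_mul_eq_one.1 h3).symm
      · intro j
        obtain ⟨σ, h1, h2⟩ := tri_inf_trans r hinj hroot hall hp5 hFF A hA hX 0 j
        refine ⟨⟨σ, (hDmem _).2 h1⟩, ?_⟩
        apply hinj
        show r (ρ σ 0) = r j
        rw [← hρ, h2]
    rw [Nat.card_congr (Equiv.ofBijective _ hb), Nat.card_eq_fintype_card, Fintype.card_fin]
  have hreal : RealAct k (D.map ρ') := by
    refine ⟨L, instL, instA, hfd, hgal, ρ', hρ'surj, ?_, A, hA.1, hA.2, hX, ?_⟩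
    · intro A' hA' hA'k hXA' σ hσ
      have h1 : σ = 1 := by
        apply hfixall
        intro i
        exact tri_finite r hinj hroot hp5 hFF A' ⟨hA', hA'k⟩ hXA' σ hσ (fun i => ⟨_, hρ _ i⟩) i
      rw [h1, map_one]
    · intro g
      rw [Subgroup.mem_map]
      rfl
  have hcardP : Nat.card (D.map ρ') = p := by
    have h1 := Nat.card_congr (Subgroup.equivMapOfInjective D ρ' hρ'inj).toEquiv
    exact h1.symm.trans hDcard
  have hfac := factorization_alternating (p := p) hp5
  have e1 : Nat.card (D.map ρ') = p ^ (Nat.card (alternatingGroup (Fin p))).factorization p := by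
    rw [hfac, pow_one, hcardP]
  have e2 : Nat.card (Subgroup.zpowers τ) =
      p ^ (Nat.card (alternatingGroup (Fin p))).factorization p := by
    rw [hfac, pow_one, Nat.card_zpowers, hτ]
  obtain ⟨g, hg⟩ := MulAction.exists_smul_eq (alternatingGroup (Fin p))
    (Sylow.ofCard (D.map ρ') e1) (Sylow.ofCard (Subgroup.zpowers τ) e2)
  have h1 : (D.map ρ').map (MulAut.conj g).toMonoidHom = Subgroup.zpowers τ := by
    have h2 := congrArg (fun Q : Sylow p (alternatingGroup (Fin p)) => (Q : Subgroup (alternatingGroup (Fin p)))) hg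
    exact h2
  rw [← h1, ra_iso]
  exact hreal

end Pool.Agent.Helper54.TJ
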