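import Pool.Agent.Helper54.AN.Kappa
import Pool.Agent.Helper54.AN.Ap
import Pool.Agent.Helper54.RT.JJ
import Pool.Agent.Helper54.SL.Main

/-!
# AN-03: the alternating groups on `p` and `p + 1` points

PROOF.  It is enough to treat `α = Fin p` (`realAct_Ap`) and `α = Fin (p + 1)` (transport by an equivalence `α ≃ Fin n`:
`Equiv.altCongrHom` or restrict `Equiv.permCongrHom`, and `ra_iso`).
`p + 1` points.  Let `κ` be as in `gta_kappa`, `U = κ (U1 p)`, of order `p`.  The order of `alternatingGroup (Fin (p+1))` is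
`(p+1)!/2`, divisible by `p` exactly once, so all subgroups of order `p` are conjugate and it is enough to have
`RealAct k P`, `P = zpowers U` (`ra_iso` for an inner automorphism).  Show `JJ k P = ⊤` and use `jj_top`.
(a) `P ≤ κ.range`, `RealAct k (P.subgroupOf κ.range)`: `realAct_sl2` (`n = 1`, field `ZMod p`) gives
`RealAct k (zpowers (U1 p))` in `SL_2(ZMod p)`, and `ra_map` for `κ.rangeRestrict`.  So `κ.range ≤ JJ k P` (`jj_le`).
(b) Let `B` be the stabilizer of `Fin.last p` in `alternatingGroup (Fin (p+1))` (it is the range of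
`alternatingGroup.ofSubtype s` for `s = univ.erase (Fin.last p)`, `p` points).  `P ≤ B`, and `B ≃* alternatingGroup (Fin p)`
maps `U` to an element of order `p`: `realAct_Ap`, `ra_iso`.  So `B ≤ JJ k P`.
(c) `κ.range` is transitive, so every 3-cycle `g` is conjugate by an element `h` of `κ.range` to a 3-cycle which fixes
`Fin.last p` (choose `h` which maps a fixed point of `g` to `Fin.last p`; there is one since `p + 1 > 3`), which is in `B`.  So
`JJ k P` contains all 3-cycles, so it is `⊤` (`alternatingGroup.closure_isThreeCycles_eq_top`).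
-/

set_option autoImplicit false
open scoped Pointwise
open Pool.Agent.Helper54.PW Pool.Agent.Helper54.RT

namespace Pool.Agent.Helper54.TJ

/-- a homomorphism which is injective and maps `V` to `U` gives a cover for the range -/
private lemma ap1_range {k : Type} [Field k] {G H : Type} [Group G] [Group H] (f : H →* G) (V : H)
    (h : RealAct k (Subgroup.zpowers V)) :
    RealAct k ((Subgroup.zpowers (f V)).subgroupOf f.range) := by
  have h1 := ra_map f.rangeRestrict f.rangeRestrict_surjective h
  have h2 : (Subgroup.zpowers V).map f.rangeRestrict =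
      (Subgroup.zpowers (f V)).subgroupOf f.range := by
    apply Subgroup.map_injective f.range.subtype_injective
    rw [Subgroup.map_map, Subgroup.map_subgroupOf_eq_of_le, MonoidHom.map_zpowers]
    · rfl
    · rw [Subgroup.zpowers_le]
      exact ⟨V, rfl⟩
  rw [← h2]
  exact h1

private lemma ap1_transport {k : Type} [Field k] {G H : Type} [Group G] [Group H] (e : G ≃* H)
    (τ : G) (h : RealAct k (Subgroup.zpowers (e τ))) : RealAct k (Subgroup.zpowers τ) := by
  rw [← ra_iso e, MonoidHom.map_zpowers]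
  exact h

private lemma ap1_p {p : ℕ} [Fact p.Prime] (hp5 : 5 ≤ p) {k : Type} [Field k]
    [IsAlgClosed k] [CharP k p] {α : Type} [Fintype α] [DecidableEq α]
    (hα : Fintype.card α = p) (τ : alternatingGroup α)
    (hτ : orderOf τ = p) : RealAct k (Subgroup.zpowers τ) := by
  let e : α ≃ Fin p := Fintype.equivFinOfCardEq hα
  apply ap1_transport (Equiv.altCongrHom e)
  apply realAct_Ap hp5
  rw [MulEquiv.orderOf_eq, hτ]

private lemma ap1_U1 {p : ℕ} [Fact p.Prime] : (U1 p) ^ p = 1 := by
  have h : ∀ n : ℕ, ((U1 p) ^ n).1 = !![1, (n : ZMod p); 0, 1] := by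
    intro n
    induction n with
    | zero =>
      ext i j
      fin_cases i <;> fin_cases j <;> simp
    | succ n ih =>
      rw [pow_succ, Matrix.SpecialLinearGroup.coe_mul, ih]
      ext i j
      fin_cases i <;> fin_cases j <;> simp [U1, Matrix.mul_apply, Fin.sum_univ_two, add_comm]
  apply Subtype.ext
  rw [h p]
  ext i j
  fin_cases i <;> fin_cases j <;> simp

private lemma ap1_pgroup {p : ℕ} [Fact p.Prime] {G : Type} [Group G] {g : G} (h : g ^ p = 1) :
    IsPGroup p (Subgroup.zpowers g) := by
  rintro ⟨x, hx⟩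
  obtain ⟨i, rfl⟩ := Subgroup.mem_zpowers_iff.1 hx
  refine ⟨1, Subtype.ext ?_⟩
  show (g ^ i) ^ p ^ 1 = 1
  rw [pow_one, ← zpow_natCast, ← zpow_mul, mul_comm, zpow_mul, zpow_natCast, h, one_zpow]

private lemma ap1_fact {p : ℕ} [Fact p.Prime] (hp5 : 5 ≤ p) :
    (Nat.card (alternatingGroup (Fin (p + 1)))).factorization p = 1 := by
  have hp : p.Prime := Fact.out
  have : Nontrivial (Fin (p + 1)) := Fin.nontrivial_iff_two_le.2 (by omega)
  have h1 := two_mul_nat_card_alternatingGroup (α := Fin (p + 1))
  rw [Nat.card_perm, Nat.card_eq_fintype_card (α := Fin (p + 1)), Fintype.card_fin] at h1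
  have h2 : (p + 1).factorial = (p + 1) * (p * (p - 1).factorial) := by
    rw [Nat.factorial_succ]
    congr 1
    exact (Nat.mul_factorial_pred hp.ne_zero).symm
  have hc : Nat.card (alternatingGroup (Fin (p + 1))) ≠ 0 := Nat.card_pos.ne'
  have h3 : (2 * Nat.card (alternatingGroup (Fin (p + 1)))).factorization p =
      ((p + 1) * (p * (p - 1).factorial)).factorization p := by rw [h1, h2]
  rw [Nat.factorization_mul two_ne_zero hc, Nat.factorization_mul (by omega)
    (mul_ne_zero hp.ne_zero (Nat.factorial_ne_zero _)),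
    Nat.factorization_mul hp.ne_zero (Nat.factorial_ne_zero _)] at h3
  simp only [Finsupp.add_apply] at h3
  have h4 : (2 : ℕ).factorization p = 0 := by
    apply Nat.factorization_eq_zero_of_not_dvd
    intro h
    have := Nat.le_of_dvd (by norm_num) h
    omega
  have h5 : (p + 1).factorization p = 0 := by
    apply Nat.factorization_eq_zero_of_not_dvd
    intro h
    have h6 := (Nat.dvd_add_right (dvd_refl p)).1 h
    have := Nat.le_of_dvd (by norm_num) h6
    omega
  have h7 : ((p - 1).factorial).factorization p = 0 := by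
    apply Nat.factorization_eq_zero_of_not_dvd
    rw [hp.dvd_factorial]
    omega
  have h8 : p.factorization p = 1 := hp.factorization_self
  omega

private lemma ap1_conj {p : ℕ} [Fact p.Prime] (hp5 : 5 ≤ p)
    (σ τ : alternatingGroup (Fin (p + 1))) (hσ : orderOf σ = p) (hτ : orderOf τ = p) :
    ∃ g, Subgroup.zpowers τ = (Subgroup.zpowers σ).map (MulAut.conj g).toMonoidHom := by
  have h1 : Nat.card (Subgroup.zpowers σ) =
      p ^ (Nat.card (alternatingGroup (Fin (p + 1)))).factorization p := by
    rw [ap1_fact hp5, pow_one, Nat.card_zpowers, hσ]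
  have h2 : Nat.card (Subgroup.zpowers τ) =
      p ^ (Nat.card (alternatingGroup (Fin (p + 1)))).factorization p := by
    rw [ap1_fact hp5, pow_one, Nat.card_zpowers, hτ]
  obtain ⟨g, hg⟩ := MulAction.exists_smul_eq (alternatingGroup (Fin (p + 1)))
    (Sylow.ofCard _ h1) (Sylow.ofCard _ h2)
  refine ⟨g, ?_⟩
  have h3 := congrArg (fun S : Sylow p (alternatingGroup (Fin (p + 1))) =>
    (S : Subgroup (alternatingGroup (Fin (p + 1))))) hg
  exact h3.symm

private lemma ap1_succ {p : ℕ} [Fact p.Prime] (hp5 : 5 ≤ p) {k : Type} [Field k]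
    [IsAlgClosed k] [CharP k p] (τ : alternatingGroup (Fin (p + 1)))
    (hτ : orderOf τ = p) : RealAct k (Subgroup.zpowers τ) := by
  classical
  have hp : p.Prime := Fact.out
  obtain ⟨κ, hκ1, hκ2, hκ3⟩ := gta_kappa (p := p) hp5
  suffices h : RealAct k (Subgroup.zpowers (κ (U1 p))) by
    obtain ⟨g, hg⟩ := ap1_conj hp5 (κ (U1 p)) τ hκ1 hτ
    rw [hg, ra_iso]
    exact h
  have hU : (κ (U1 p)) ^ p = 1 := by rw [← map_pow, ap1_U1, map_one]
  have hP : IsPGroup p (Subgroup.zpowers (κ (U1 p))) := ap1_pgroup hU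
  -- the image of `SL_2`
  have h1 : κ.range ≤ JJ k (Subgroup.zpowers (κ (U1 p))) := by
    apply jj_le le_rfl
    apply ap1_range
    refine SL.realAct_sl2 (n := 1) (𝔽 := ZMod p) hp5 one_pos (by rw [ZMod.card, pow_one]) _
      (ap1_pgroup ap1_U1) ?_
    intro h
    rw [Subgroup.zpowers_eq_bot] at h
    rw [h, map_one, orderOf_one] at hκ1
    omega
  -- the stabilizer of the last point
  have h2 : (alternatingGroup.ofSubtype (Finset.univ.erase (Fin.last p))).range ≤
      JJ k (Subgroup.zpowers (κ (U1 p))) := by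
    have h3 : κ (U1 p) ∈ (alternatingGroup.ofSubtype (Finset.univ.erase (Fin.last p))).range := by
      rw [alternatingGroup.mem_range_ofSubtype_iff]
      intro x hx
      rw [Finset.mem_erase]
      refine ⟨?_, Finset.mem_univ x⟩
      rintro rfl
      exact (Equiv.Perm.mem_support.1 hx) hκ2
    obtain ⟨V, hV⟩ := h3
    have h4 : orderOf V = p := by
      have h5 := orderOf_injective _ alternatingGroup.ofSubtype_injective V
      rw [hV, hκ1] at h5
      exact h5.symm
    apply jj_le le_rfl
    rw [← hV]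
    apply ap1_range
    apply ap1_p hp5 ?_ V h4
    rw [Fintype.card_coe, Finset.card_erase_of_mem (Finset.mem_univ _), Finset.card_univ,
      Fintype.card_fin]
    omega
  apply jj_top hP
  rw [eq_top_iff, ← alternatingGroup.closure_isThreeCycles_eq_top, Subgroup.closure_le]
  intro g hg
  have hg3 : Equiv.Perm.IsThreeCycle (g : Equiv.Perm (Fin (p + 1))) := hg
  obtain ⟨a, ha⟩ : ∃ a, (g : Equiv.Perm (Fin (p + 1))) a = a := by
    by_contra hcon
    push Not at hcon
    have h5 : (g : Equiv.Perm (Fin (p + 1))).support = Finset.univ := by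
      ext x
      simp only [Equiv.Perm.mem_support, Finset.mem_univ, iff_true]
      exact hcon x
    have h6 := hg3.card_support
    rw [h5, Finset.card_univ, Fintype.card_fin] at h6
    omega
  obtain ⟨x, hx⟩ := hκ3 a (Fin.last p)
  have h5 : κ x * g * (κ x)⁻¹ ∈
      (alternatingGroup.ofSubtype (Finset.univ.erase (Fin.last p))).range := by
    rw [alternatingGroup.mem_range_ofSubtype_iff]
    intro y hy
    rw [Finset.mem_erase]
    refine ⟨?_, Finset.mem_univ y⟩
    rintro rfl
    apply Equiv.Perm.mem_support.1 hy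
    show (κ x : Equiv.Perm (Fin (p + 1))) ((g : Equiv.Perm (Fin (p + 1)))
      ((κ x : Equiv.Perm (Fin (p + 1)))⁻¹ (Fin.last p))) = Fin.last p
    have h6 : (κ x : Equiv.Perm (Fin (p + 1)))⁻¹ (Fin.last p) = a := by
      rw [Equiv.Perm.inv_eq_iff_eq]
      exact hx.symm
    rw [h6, ha, hx]
  have h6 : κ x ∈ JJ k (Subgroup.zpowers (κ (U1 p))) := h1 ⟨x, rfl⟩
  have h7 : g = (κ x)⁻¹ * (κ x * g * (κ x)⁻¹) * κ x := by group
  show g ∈ JJ k (Subgroup.zpowers (κ (U1 p)))
  rw [h7]
  exact mul_mem (mul_mem (inv_mem h6) (h2 h5)) h6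

theorem realAct_alt_small {p : ℕ} [Fact p.Prime] (hp5 : 5 ≤ p) {k : Type} [Field k]
    [IsAlgClosed k] [CharP k p] {α : Type} [Fintype α] [DecidableEq α]
    (hα : Fintype.card α = p ∨ Fintype.card α = p + 1) (τ : alternatingGroup α)
    (hτ : orderOf τ = p) : RealAct k (Subgroup.zpowers τ) := by
  rcases hα with hα | hα
  · exact ap1_p hp5 hα τ hτ
  · let e : α ≃ Fin (p + 1) := Fintype.equivFinOfCardEq hα
    apply ap1_transport (Equiv.altCongrHom e)
    apply ap1_succ hp5
    rw [MulEquiv.orderOf_eq, hτ]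

end Pool.Agent.Helper54.TJ
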