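import Mathlib

/-!
# AN-09: automorphisms of odd order of an alternating group preserve the 3-cycles

PROOF.  `n = card α ≥ 5`.  The 3-cycles form one conjugacy class `T` of `A = alternatingGroup α` (`isThreeCycle_isConj`), with
`n(n-1)(n-2)/3` elements (`Equiv.Perm.card_of_cycleType` or `Equiv.Perm.card_isThreeCycle`...).  For an automorphism `φ`,
`φ(T)` is a conjugacy class of `A` of elements of order 3, of the same size.  An element `s'` of order 3 is a product of `t`
disjoint 3-cycles; its `Perm α`-class has `n!/(3^t t! (n-3t)!)` elements, and the `A`-class is this class or (index two) half of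
it.  So, if `s' ∈ φ(T)`, `(n-3)!/(n-3t)! = 3^(t-1) t!` or `= 2 * 3^(t-1) t!`.  For `t ≥ 3` this is impossible
(`(n-3)!/(n-3t)! ≥ (3t-3)! > 2 * 3^(t-1) t!`), for `t = 2`: `(n-3)(n-4)(n-5) ∈ {6, 12}` gives `n = 6`.  So for `n ≠ 6` every
automorphism preserves `T`.  For `n = 6`: `φ` permutes the set of the two classes of elements of order 3 (types `3` and `3,3`), and
`φ` has odd order, so it preserves both of them: `φ(T) = T` or `φ` exchanges `T` and `T'`; in the second case `φ^m` exchanges them
for all odd `m`, but `φ^(orderOf φ) = 1`.  (For `n = 6` one should show that `φ` maps `T'` to `T` if it maps `T` to `T'`, where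
`T'` = elements of type `3,3`: `φ⁻¹` maps elements of order 3 to elements of order 3, the sets `T` and `T'` both have 40
elements and `T ∪ T'` is the set of all elements of order 3.)
-/

set_option autoImplicit false

namespace Pool.Agent.Helper54.AN

private theorem aut1_fact (t : ℕ) (ht : 3 ≤ t) :
    3 ^ t * t.factorial < 3 * (3 * t - 3).factorial := by
  induction t, ht using Nat.le_induction with
  | base => decide
  | succ t ht ih =>
    obtain ⟨s, rfl⟩ : ∃ s, t = s + 1 := ⟨t - 1, by omega⟩
    have e1 : 3 * (s + 1 + 1) - 3 = 3 * s + 2 + 1 := by omega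
    have e2 : 3 * (s + 1) - 3 = 3 * s := by omega
    have f1 : (s + 1 + 1).factorial = (s + 1 + 1) * (s + 1).factorial := Nat.factorial_succ _
    have f2 : (3 * s + 2 + 1).factorial =
        (3 * s + 2 + 1) * ((3 * s + 1 + 1) * ((3 * s + 1) * (3 * s).factorial)) := by
      rw [Nat.factorial_succ (3 * s + 2), Nat.factorial_succ (3 * s + 1),
        Nat.factorial_succ (3 * s)]
    rw [e2] at ih
    rw [e1, f1, f2, pow_succ]
    have h1 : 3 * (s + 1 + 1) ≤ (3 * s + 2 + 1) * ((3 * s + 1 + 1) * (3 * s + 1)) := by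
      have h2 : 2 ≤ (3 * s + 1 + 1) * (3 * s + 1) := by nlinarith
      calc 3 * (s + 1 + 1) ≤ (3 * s + 2 + 1) * 2 := by omega
        _ ≤ (3 * s + 2 + 1) * ((3 * s + 1 + 1) * (3 * s + 1)) := Nat.mul_le_mul_left _ h2
    calc 3 ^ (s + 1) * 3 * ((s + 1 + 1) * (s + 1).factorial)
        = (3 * (s + 1 + 1)) * (3 ^ (s + 1) * (s + 1).factorial) := by ring
      _ < (3 * (s + 1 + 1)) * (3 * (3 * s).factorial) :=
          Nat.mul_lt_mul_of_pos_left ih (by omega)
      _ ≤ ((3 * s + 2 + 1) * ((3 * s + 1 + 1) * (3 * s + 1))) * (3 * (3 * s).factorial) :=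
          Nat.mul_le_mul_right _ h1
      _ = 3 * ((3 * s + 2 + 1) * ((3 * s + 1 + 1) * ((3 * s + 1) * (3 * s).factorial))) := by
          ring

private theorem aut1_num (n t : ℕ) (ht : 2 ≤ t) (hn : 3 * t ≤ n)
    (h : (n - 3).factorial * 3 = (n - 3 * t).factorial * 3 ^ t * t.factorial) :
    t = 2 ∧ n = 6 := by
  obtain ⟨s, rfl⟩ : ∃ s, n = s + 3 * t := ⟨n - 3 * t, by omega⟩
  have e1 : s + 3 * t - 3 * t = s := by omega
  have e2 : s + 3 * t - 3 = s + (3 * t - 3) := by omega
  rw [e1, e2] at h
  rcases Nat.lt_or_ge t 3 with h3 | h3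
  · have ht2 : t = 2 := by omega
    subst ht2
    refine ⟨rfl, ?_⟩
    have e3 : s + (3 * 2 - 3) = s + 1 + 1 + 1 := by omega
    rw [e3, Nat.factorial_succ, Nat.factorial_succ, Nat.factorial_succ] at h
    have hs : 0 < s.factorial := Nat.factorial_pos s
    have h4 : (s + 1 + 1 + 1) * ((s + 1 + 1) * (s + 1)) * 3 * s.factorial =
        18 * s.factorial := by
      have h5 : Nat.factorial 2 = 2 := rfl
      rw [h5] at h
      linarith
    have h5 := Nat.eq_of_mul_eq_mul_right hs h4
    have h6 : s = 0 := by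
      by_contra h0
      have : 1 ≤ s := by omega
      nlinarith [mul_pos (show 0 < s by omega) (show 0 < s by omega)]
    omega
  · exfalso
    have h4 := Nat.le_of_dvd (Nat.factorial_pos _)
      (Nat.factorial_mul_factorial_dvd_factorial_add s (3 * t - 3))
    have h5 := aut1_fact t h3
    have hs : 0 < s.factorial := Nat.factorial_pos s
    have h6 : s.factorial * (3 ^ t * t.factorial) < s.factorial * (3 * (3 * t - 3).factorial) :=
      Nat.mul_lt_mul_of_pos_left h5 hs
    nlinarith

section
variable {α : Type} [Fintype α] [DecidableEq α]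

private theorem aut1_conj (hα : 5 ≤ Fintype.card α) {t : ℕ} (ht : 0 < t)
    (a b : alternatingGroup α)
    (ha : (a : Equiv.Perm α).cycleType = Multiset.replicate t 3)
    (hb : (b : Equiv.Perm α).cycleType = Multiset.replicate t 3) : IsConj a b := by
  obtain ⟨c, hc⟩ := isConj_iff.1 (Equiv.Perm.isConj_iff_cycleType_eq.2 (ha.trans hb.symm))
  rcases Int.units_eq_one_or (Equiv.Perm.sign c) with h | h
  · exact isConj_iff.2 ⟨⟨c, Equiv.Perm.mem_alternatingGroup.2 h⟩, Subtype.ext hc⟩
  · have h1 : ¬ Subgroup.centralizer {(a : Equiv.Perm α)} ≤ alternatingGroup α := by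
      intro hle
      have h2 := Equiv.Perm.card_le_of_centralizer_le_alternating hle
      have h3 := Equiv.Perm.count_le_one_of_centralizer_le_alternating hle 3
      rw [ha, Multiset.sum_replicate, smul_eq_mul] at h2
      rw [ha, Multiset.count_replicate_self] at h3
      omega
    obtain ⟨z, hz, hz2⟩ := SetLike.not_le_iff_exists.1 h1
    rw [Equiv.Perm.mem_alternatingGroup] at hz2
    have hz3 := (Int.units_eq_one_or (Equiv.Perm.sign z)).resolve_left hz2
    have hz4 : z * a = a * z := Subgroup.mem_centralizer_singleton_iff.1 hz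
    refine isConj_iff.2 ⟨⟨c * z, ?_⟩, Subtype.ext ?_⟩
    · rw [Equiv.Perm.mem_alternatingGroup, map_mul, h, hz3]
      rfl
    · show c * z * a * (c * z)⁻¹ = b
      rw [← hc, mul_inv_rev, mul_assoc c z, hz4]
      group

private theorem aut1_class (hα : 5 ≤ Fintype.card α) {t : ℕ} (ht : 0 < t)
    (a b : alternatingGroup α) (ψ : MulAut (alternatingGroup α))
    (ha : (a : Equiv.Perm α).cycleType = Multiset.replicate t 3)
    (hb : (b : Equiv.Perm α).cycleType = Multiset.replicate t 3) :
    ((ψ a : alternatingGroup α) : Equiv.Perm α).cycleType =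
      ((ψ b : alternatingGroup α) : Equiv.Perm α).cycleType := by
  have h1 := aut1_conj hα ht a b ha hb
  obtain ⟨c, hc⟩ := isConj_iff.1 h1
  rw [← Equiv.Perm.isConj_iff_cycleType_eq, isConj_iff]
  refine ⟨((ψ c : alternatingGroup α) : Equiv.Perm α), ?_⟩
  have h2 := congrArg (fun x => ((ψ x : alternatingGroup α) : Equiv.Perm α)) hc
  simpa using h2

private theorem aut1_type (a : alternatingGroup α) (ha : orderOf a = 3) :
    ∃ t : ℕ, 0 < t ∧ 3 * t ≤ Fintype.card α ∧
      (a : Equiv.Perm α).cycleType = Multiset.replicate t 3 := by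
  have h1 : orderOf (a : Equiv.Perm α) = 3 := by rw [Subgroup.orderOf_coe, ha]
  obtain ⟨n, hn⟩ := Equiv.Perm.cycleType_prime_order (σ := (a : Equiv.Perm α))
    (by rw [h1]; exact Nat.prime_three)
  rw [h1] at hn
  refine ⟨n + 1, Nat.succ_pos n, ?_, hn⟩
  have h2 := Equiv.Perm.sum_cycleType (a : Equiv.Perm α)
  rw [hn, Multiset.sum_replicate, smul_eq_mul] at h2
  have h3 := Finset.card_le_univ (a : Equiv.Perm α).support
  rw [← h2] at h3
  omega

private theorem aut1_order (a : alternatingGroup α) {t : ℕ} (ht : 0 < t)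
    (ha : (a : Equiv.Perm α).cycleType = Multiset.replicate t 3) : orderOf a = 3 := by
  rw [← Subgroup.orderOf_coe, ← Equiv.Perm.lcm_cycleType, ha]
  apply Nat.dvd_antisymm
  · exact Multiset.lcm_dvd.2 fun b hb => (Multiset.eq_of_mem_replicate hb) ▸ dvd_rfl
  · exact Multiset.dvd_lcm (Multiset.mem_replicate.2 ⟨ht.ne', rfl⟩)

private theorem aut1_card {t : ℕ} (ht : 0 < t) (hn : 3 * t ≤ Fintype.card α) :
    (Finset.univ.filter fun g : alternatingGroup α =>
      (g : Equiv.Perm α).cycleType = Multiset.replicate t 3).card *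
      ((Fintype.card α - 3 * t).factorial * 3 ^ t * t.factorial) = (Fintype.card α).factorial := by
  have h1 := AlternatingGroup.card_of_cycleType_mul_eq α (Multiset.replicate t 3)
  have h2 : (Multiset.replicate t 3).toFinset = {3} := by
    rw [Multiset.toFinset_replicate, if_neg ht.ne']
  rw [Multiset.sum_replicate, Multiset.prod_replicate, h2, Finset.prod_singleton,
    Multiset.count_replicate_self, Multiset.card_replicate, smul_eq_mul, mul_comm t 3,
    if_pos] at h1
  · exact h1
  · refine ⟨⟨hn, fun a ha => ?_⟩, ?_⟩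
    · rw [Multiset.eq_of_mem_replicate ha]
      norm_num
    · exact ⟨2 * t, by ring⟩

end

theorem aut_three_cycle {α : Type} [Fintype α] [DecidableEq α] (hα : 5 ≤ Fintype.card α)
    (φ : MulAut (alternatingGroup α)) (hφ : Odd (orderOf φ)) (g : alternatingGroup α)
    (hg : (g : Equiv.Perm α).IsThreeCycle) :
    ((φ g : alternatingGroup α) : Equiv.Perm α).IsThreeCycle := by
  classical
  have hg1 : (g : Equiv.Perm α).cycleType = Multiset.replicate 1 3 := by
    rw [Multiset.replicate_one]
    exact hg
  have hord : ∀ (ψ : MulAut (alternatingGroup α)) (a : alternatingGroup α),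
      orderOf (ψ a) = orderOf a := fun ψ a => MulEquiv.orderOf_eq ψ a
  have hg3 : orderOf g = 3 := aut1_order g one_pos hg1
  obtain ⟨t, ht0, htn, ht⟩ := aut1_type (φ g) (by rw [hord, hg3])
  rcases Nat.lt_or_ge t 2 with h2 | h2
  · have ht1 : t = 1 := by omega
    rw [ht1, Multiset.replicate_one] at ht
    exact ht
  exfalso
  have hinv : ∀ a, φ⁻¹ (φ a) = a := fun a => φ.symm_apply_apply a
  have hinv' : ∀ a, φ (φ⁻¹ a) = a := fun a => φ.apply_symm_apply a
  -- the classes have the same size
  have hcard : (Finset.univ.filter fun g : alternatingGroup α =>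
      (g : Equiv.Perm α).cycleType = Multiset.replicate 1 3).card =
      (Finset.univ.filter fun g : alternatingGroup α =>
      (g : Equiv.Perm α).cycleType = Multiset.replicate t 3).card := by
    apply Finset.card_bij (fun a _ => φ a)
    · intro a ha
      rw [Finset.mem_filter] at ha ⊢
      refine ⟨Finset.mem_univ _, ?_⟩
      rw [← ht]
      exact aut1_class hα one_pos a g φ ha.2 hg1
    · intro a _ b _ h
      exact φ.injective h
    · intro b hb
      rw [Finset.mem_filter] at hb
      refine ⟨φ⁻¹ b, ?_, hinv' b⟩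
      rw [Finset.mem_filter]
      refine ⟨Finset.mem_univ _, ?_⟩
      have h3 := aut1_class hα ht0 b (φ g) φ⁻¹ hb.2 ht
      rw [hinv, hg1] at h3
      exact h3
  have hc1 := aut1_card (α := α) one_pos (by omega)
  have hc2 := aut1_card (α := α) ht0 htn
  rw [hcard, ← hc2] at hc1
  have hpos : 0 < (Finset.univ.filter fun g : alternatingGroup α =>
      (g : Equiv.Perm α).cycleType = Multiset.replicate t 3).card :=
    Finset.card_pos.2 ⟨φ g, by rw [Finset.mem_filter]; exact ⟨Finset.mem_univ _, ht⟩⟩
  have h3 := Nat.eq_of_mul_eq_mul_left hpos hc1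
  rw [mul_one, pow_one, Nat.factorial_one, mul_one] at h3
  obtain ⟨rfl, hn6⟩ := aut1_num _ t h2 htn h3
  -- the group `A_6`
  have hP : ∀ h : alternatingGroup α, (h : Equiv.Perm α).cycleType = Multiset.replicate 1 3 →
      ((φ h : alternatingGroup α) : Equiv.Perm α).cycleType = Multiset.replicate 2 3 := by
    intro h hh
    rw [← ht]
    exact aut1_class hα one_pos h g φ hh hg1
  have hne : Multiset.replicate 1 3 ≠ Multiset.replicate 2 3 := by
    intro h
    have := congrArg Multiset.card h
    rw [Multiset.card_replicate, Multiset.card_replicate] at this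
    omega
  have hQ : ∀ h : alternatingGroup α, (h : Equiv.Perm α).cycleType = Multiset.replicate 2 3 →
      ((φ h : alternatingGroup α) : Equiv.Perm α).cycleType = Multiset.replicate 1 3 := by
    intro h hh
    obtain ⟨s, hs0, hsn, hs⟩ := aut1_type (φ h) (by rw [hord, aut1_order h two_pos hh])
    rw [hn6] at hsn
    have hs12 : s = 1 ∨ s = 2 := by omega
    rcases hs12 with rfl | rfl
    · exact hs
    · exfalso
      have h4 := aut1_class hα two_pos (φ h) (φ g) φ⁻¹ hs ht
      rw [hinv, hinv, hg1, hh] at h4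
      exact hne h4.symm
  obtain ⟨m, hm⟩ := hφ
  have hpow : ∀ j : ℕ, (((φ ^ (2 * j)) g : alternatingGroup α) : Equiv.Perm α).cycleType =
      Multiset.replicate 1 3 := by
    intro j
    induction j with
    | zero => exact hg1
    | succ j ih =>
      have e1 : (φ ^ (2 * (j + 1))) g = φ (φ ((φ ^ (2 * j)) g)) := by
        have : φ ^ (2 * (j + 1)) = φ * (φ * φ ^ (2 * j)) := by
          rw [← pow_succ', ← pow_succ']
          congr 1
        rw [this]
        rfl
      rw [e1]
      exact hQ _ (hP _ ih)
  have h4 := hP _ (hpow m)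
  have e1 : φ ((φ ^ (2 * m)) g) = g := by
    have h5 : φ * φ ^ (2 * m) = 1 := by
      rw [← pow_succ', ← hm, pow_orderOf_eq_one]
    have h6 := congrArg (fun ψ : MulAut (alternatingGroup α) => ψ g) h5
    exact h6
  rw [e1, hg1] at h4
  exact hne h4

end Pool.Agent.Helper54.AN
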