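import Pool.Agent.Helper54.AN.Merge

/-!
# AN-10: automorphisms which preserve the 3-cycles come from permutations

PROOF.  Oriented edges: the 3-cycle `c3 a b c` has the oriented edges `(a,b)`, `(b,c)`, `(c,a)`.
(1) Let `s ≠ t` be two 3-cycles with `(s t)^2 = 1` and `s t ≠ 1`: then they share exactly two points and an oriented edge:
`s = c3 a b c`, `t = c3 a b d`, `c ≠ d`.  (Common support: `0` or `1` points: the product has order 3 or 5; `3` points: `t = s` or
`t = s⁻¹`, product of order 3 or 1; `2` points with opposite orientation: `s = c3 a b c`, `t = c3 b a d`: product of order 3.)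
(2) Fix two points `u ≠ v`.  For `i ∉ {u, v}` let `t i = φ (c3 u v i)`; these are `n - 2 ≥ 3` distinct 3-cycles, and for `i ≠ j`
`(t i * t j)^2 = 1`, `t i * t j ≠ 1` (because `c3 u v i * c3 u v j` is a double transposition).
(3) All `t i` share a common oriented edge `(a, b)`: take `i ≠ j`, `t i = c3 a b c`, `t j = c3 a b d`.  Let `l` be a third index; `t l`
shares an oriented edge with `t i` and one with `t j`, and is different from both.  If it does not contain the edge `(a,b)`: it
contains `(b,c)` or `(c,a)`; if `t l = c3 b c e` with `e ≠ a`: its edges are `(b,c), (c,e), (e,b)`, and it must share an edge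
with `c3 a b d` (edges `(a,b), (b,d), (d,a)`), impossible (`c ≠ d`; `(e,b) = (a,b)` would give `e = a`); similarly for
`(c,a)`.  So `t l = c3 a b e`.
(4) Write `t i = c3 a b (f i)`; `f` is injective with values `∉ {a, b}`.  Let `s` be the permutation with `s u = a`, `s v = b`,
`s i = f i` (injective map of a finite set).  Then `φ (c3 u v i) = c3 a b (f i) = s (c3 u v i) s⁻¹` (`c3_conj`).
(5) The `c3 u v i` generate the alternating group: by `t3_merge` (`T3 K {u, v, i}` by `t3_single`; common points `u, v`) and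
`t3_univ`.  So `φ g = s g s⁻¹` for all `g` (`Subgroup.closure_induction`, or: the set of `g` for which this holds is a
subgroup which contains the generators).
-/

set_option autoImplicit false

namespace Pool.Agent.Helper54.AN

open Equiv

section
variable {α : Type} [DecidableEq α]

private theorem c3_left {a b c : α} (hab : a ≠ b) (hac : a ≠ c) : c3 a b c a = b := by
  unfold c3
  rw [Perm.mul_apply, swap_apply_of_ne_of_ne hab hac, swap_apply_left]

private theorem c3_mid {a b c : α} (hbc : b ≠ c) (hac : a ≠ c) : c3 a b c b = c := by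
  unfold c3
  rw [Perm.mul_apply, swap_apply_left, swap_apply_of_ne_of_ne hac.symm hbc.symm]

private theorem c3_right {a b c : α} : c3 a b c c = a := by
  unfold c3
  rw [Perm.mul_apply, swap_apply_right, swap_apply_right]

private theorem c3_other {a b c x : α} (h1 : x ≠ a) (h2 : x ≠ b) (h3 : x ≠ c) :
    c3 a b c x = x := by
  unfold c3
  rw [Perm.mul_apply, swap_apply_of_ne_of_ne h2 h3, swap_apply_of_ne_of_ne h1 h2]

private theorem thr [Fintype α] {s : Perm α} (hs : s.IsThreeCycle) {x : α} (hx : s x ≠ x) :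
    s (s (s x)) = x ∧ s (s x) ≠ s x ∧ s (s x) ≠ x ∧
      ∀ y, y ≠ x → y ≠ s x → y ≠ s (s x) → s y = y := by
  have h3 : s (s (s x)) = x := by
    have h := pow_orderOf_eq_one s
    rw [hs.orderOf] at h
    have h' := congrArg (fun g : Perm α => g x) h
    simpa [pow_succ, Perm.mul_apply] using h'
  have h1 : s (s x) ≠ s x := fun h => hx (s.injective h)
  have h2 : s (s x) ≠ x := by
    intro h
    rw [h] at h3
    exact hx h3
  refine ⟨h3, h1, h2, fun y hy1 hy2 hy3 => ?_⟩
  by_contra hy
  have hsub : ({x, s x, s (s x), y} : Finset α) ⊆ s.support := by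
    intro z hz
    rw [Finset.mem_insert, Finset.mem_insert, Finset.mem_insert, Finset.mem_singleton] at hz
    rw [Perm.mem_support]
    rcases hz with rfl | rfl | rfl | rfl
    · exact hx
    · exact h1
    · rw [h3]
      exact h2.symm
    · exact hy
  have hcard : ({x, s x, s (s x), y} : Finset α).card = 4 := by
    rw [Finset.card_insert_of_notMem, Finset.card_insert_of_notMem, Finset.card_pair hy3.symm]
    · rw [Finset.mem_insert, Finset.mem_singleton]
      rintro (h | h)
      · exact h1 h.symm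
      · exact hy2 h.symm
    · rw [Finset.mem_insert, Finset.mem_insert, Finset.mem_singleton]
      rintro (h | h | h)
      · exact hx h.symm
      · exact h2 h.symm
      · exact hy1 h.symm
  have h4 := Finset.card_le_card hsub
  rw [hcard, hs.card_support] at h4
  omega

private theorem thr_eq [Fintype α] {s : Perm α} (hs : s.IsThreeCycle) {x : α} (hx : s x ≠ x) :
    s = c3 x (s x) (s (s x)) := by
  obtain ⟨h1, h2, h3, h4⟩ := thr hs hx
  ext y
  by_cases e1 : y = x
  · subst e1
    rw [c3_left hx.symm h3.symm]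
  by_cases e2 : y = s x
  · subst e2
    rw [c3_mid h2.symm h3.symm]
  by_cases e3 : y = s (s x)
  · subst e3
    rw [c3_right, h1]
  · rw [c3_other e1 e2 e3, h4 y e1 e2 e3]

private theorem share [Fintype α] {s t : Perm α} (hs : s.IsThreeCycle) (ht : t.IsThreeCycle)
    (h1 : s * t ≠ 1) (h2 : (s * t) ^ 2 = 1) : ∃ p, s p = t p ∧ s p ≠ p := by
  have hw : ∀ z, s (t (s (t z))) = z := by
    intro z
    have h' := congrArg (fun g : Perm α => g z) h2
    simpa [pow_succ, Perm.mul_apply] using h'
  by_cases hz : ∃ z, t z ≠ z ∧ s z = z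
  · obtain ⟨z, hz1, hz2⟩ := hz
    obtain ⟨e1, e2, e3, _⟩ := thr ht hz1
    have h3 : t (s (t z)) = z := s.injective ((hw z).trans hz2.symm)
    have h4 : s (t z) = t (t z) := t.injective (h3.trans e1.symm)
    exact ⟨t z, h4, by rw [h4]; exact e2⟩
  · push Not at hz
    obtain ⟨x, hx⟩ : ∃ x, t x ≠ x := by
      by_contra hc
      push Not at hc
      have h3 : t = 1 := by
        ext y
        rw [hc y]
        rfl
      exact ht.ne_one h3
    obtain ⟨a1, a2, a3, a4⟩ := thr ht hx
    have hsx := hz x hx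
    obtain ⟨b1, b2, b3, b4⟩ := thr hs hsx
    have hc1 : s (t x) ≠ t x := hz _ a2
    by_cases e1 : t x = s x
    · exact ⟨x, e1.symm, hsx⟩
    have e2 : t x = s (s x) := by
      by_contra hc
      exact hc1 (b4 _ hx e1 hc)
    have hc2 : s (t (t x)) ≠ t (t x) := hz _ (by rw [a1]; exact a3.symm)
    have e3 : t (t x) = s x := by
      by_contra hc
      refine hc2 (b4 _ a3 hc ?_)
      rw [← e2]
      exact a2
    exfalso
    apply h1
    ext y
    rw [Perm.mul_apply, Perm.one_apply]
    by_cases f1 : y = x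
    · subst f1
      rw [e2, b1]
    by_cases f2 : y = t x
    · subst f2
      rw [e3, ← e2]
    by_cases f3 : y = t (t x)
    · subst f3
      rw [a1, e3]
    · rw [a4 y f1 f2 f3]
      apply b4 y f1
      · rw [← e3]
        exact f3
      · rw [← e2]
        exact f2

private theorem gen {K : Subgroup (Perm α)} {u v : α} (huv : u ≠ v)
    (h : ∀ i, i ≠ u → i ≠ v → c3 u v i ∈ K) (W : Finset α) :
    (∀ i ∈ W, i ≠ u ∧ i ≠ v) → W.Nonempty → T3 K (insert u (insert v W)) := by
  induction W using Finset.induction_on with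
  | empty => intro _ h2; exact absurd h2 Finset.not_nonempty_empty
  | insert i W hi ih =>
    intro hW _
    have hi2 := hW i (Finset.mem_insert_self _ _)
    have h1 : T3 K {u, v, i} := t3_single huv hi2.2.symm hi2.1.symm (h i hi2.1 hi2.2)
    rcases W.eq_empty_or_nonempty with rfl | hne
    · exact h1
    · have h2 := ih (fun j hj => hW j (Finset.mem_insert_of_mem hj)) hne
      have h3 := t3_merge (A := {u, v, i}) (B := insert u (insert v W)) ?_ ?_ ?_ h1 h2
      · have h4 : ({u, v, i} ∪ insert u (insert v W) : Finset α) =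
            insert u (insert v (insert i W)) := by
          ext z
          simp only [Finset.mem_union, Finset.mem_insert, Finset.mem_singleton]
          tauto
        rwa [h4] at h3
      · rw [Finset.card_eq_three.2 ⟨u, v, i, huv, hi2.1.symm, hi2.2.symm, rfl⟩]
      · obtain ⟨j, hj⟩ := hne
        have hj2 := hW j (Finset.mem_insert_of_mem hj)
        have h5 : ({u, v, j} : Finset α) ⊆ insert u (insert v W) := by
          intro z hz
          simp only [Finset.mem_insert, Finset.mem_singleton] at hz ⊢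
          rcases hz with rfl | rfl | rfl
          · exact Or.inl rfl
          · exact Or.inr (Or.inl rfl)
          · exact Or.inr (Or.inr hj)
        have h6 := Finset.card_le_card h5
        rwa [Finset.card_eq_three.2 ⟨u, v, j, huv, hj2.1.symm, hj2.2.symm, rfl⟩] at h6
      · exact ⟨u, Finset.mem_inter.2 ⟨Finset.mem_insert_self _ _, Finset.mem_insert_self _ _⟩⟩

end

theorem aut_conj {α : Type} [Fintype α] [DecidableEq α] (hα : 5 ≤ Fintype.card α)
    (φ : MulAut (alternatingGroup α))
    (h : ∀ g : alternatingGroup α, (g : Equiv.Perm α).IsThreeCycle →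
      ((φ g : alternatingGroup α) : Equiv.Perm α).IsThreeCycle) :
    ∃ s : Equiv.Perm α, ∀ g : alternatingGroup α,
      ((φ g : alternatingGroup α) : Equiv.Perm α) = s * g * s⁻¹ := by
  classical
  obtain ⟨e⟩ : Nonempty (Fin 4 ↪ α) :=
    Function.Embedding.nonempty_of_card_le (by rw [Fintype.card_fin]; omega)
  obtain ⟨u, hu⟩ : ∃ u, u = e 0 := ⟨_, rfl⟩
  obtain ⟨v, hv⟩ : ∃ v, v = e 1 := ⟨_, rfl⟩
  obtain ⟨i0, hi0⟩ : ∃ i, i = e 2 := ⟨_, rfl⟩
  obtain ⟨j0, hj0⟩ : ∃ j, j = e 3 := ⟨_, rfl⟩
  have huv : u ≠ v := by rw [hu, hv]; exact e.injective.ne (by decide)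
  have hui : i0 ≠ u := by rw [hu, hi0]; exact e.injective.ne (by decide)
  have hvi : i0 ≠ v := by rw [hv, hi0]; exact e.injective.ne (by decide)
  have huj : j0 ≠ u := by rw [hu, hj0]; exact e.injective.ne (by decide)
  have hvj : j0 ≠ v := by rw [hv, hj0]; exact e.injective.ne (by decide)
  have hij : i0 ≠ j0 := by rw [hi0, hj0]; exact e.injective.ne (by decide)
  have hmem : ∀ i, i ≠ u → i ≠ v → c3 u v i ∈ alternatingGroup α := by
    intro i h1 h2
    rw [Perm.mem_alternatingGroup]
    unfold c3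
    rw [Perm.sign_mul, Perm.sign_swap huv, Perm.sign_swap h2.symm]
    decide
  have hthree : ∀ i, i ≠ u → i ≠ v → (c3 u v i).IsThreeCycle := by
    intro i h1 h2
    have h3 := Perm.isThreeCycle_swap_mul_swap_same (a := v) (b := u) (c := i) huv.symm h2.symm
      h1.symm
    unfold c3
    rwa [swap_comm u v]
  obtain ⟨g, hg⟩ : ∃ g : α → alternatingGroup α, ∀ i, i ≠ u → i ≠ v →
      ((g i : alternatingGroup α) : Perm α) = c3 u v i :=
    ⟨fun i => if h : i ≠ u ∧ i ≠ v then ⟨c3 u v i, hmem i h.1 h.2⟩ else 1, fun i h1 h2 => by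
      simp only [dif_pos (And.intro h1 h2)]⟩
  obtain ⟨F, hF⟩ : ∃ F : α → Perm α, ∀ i, F i = ((φ (g i) : alternatingGroup α) : Perm α) :=
    ⟨_, fun _ => rfl⟩
  have hF3 : ∀ i, i ≠ u → i ≠ v → (F i).IsThreeCycle := by
    intro i h1 h2
    rw [hF]
    apply h
    rw [hg i h1 h2]
    exact hthree i h1 h2
  have hinj : ∀ x y : alternatingGroup α, ((φ x : alternatingGroup α) : Perm α) =
      ((φ y : alternatingGroup α) : Perm α) → x = y := fun x y hxy =>
    φ.injective (Subtype.ext hxy)
  have hFne : ∀ i j, i ≠ u → i ≠ v → j ≠ u → j ≠ v → i ≠ j → F i ≠ F j := by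
    intro i j h1 h2 h3 h4 h5 h6
    rw [hF, hF] at h6
    have h7 := congrArg (fun x : alternatingGroup α => (x : Perm α) v) (hinj _ _ h6)
    simp only [hg i h1 h2, hg j h3 h4] at h7
    rw [c3_mid h2.symm h1.symm, c3_mid h4.symm h3.symm] at h7
    exact h5 h7
  have hF1 : ∀ i j, i ≠ u → i ≠ v → j ≠ u → j ≠ v → i ≠ j → F i * F j ≠ 1 := by
    intro i j h1 h2 h3 h4 h5 h6
    have h7 : F i * F j = ((φ (g i * g j) : alternatingGroup α) : Perm α) := by
      rw [hF, hF, map_mul]
      rfl
    rw [h7] at h6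
    have h8 : g i * g j = 1 := hinj _ _ (by rw [h6, map_one]; rfl)
    have h9 := congrArg (fun x : alternatingGroup α => (x : Perm α) u) h8
    simp only [Subgroup.coe_mul, hg i h1 h2, hg j h3 h4, Perm.mul_apply, Subgroup.coe_one,
      Perm.one_apply] at h9
    rw [c3_left huv h3.symm, c3_mid h2.symm h1.symm] at h9
    exact h1 h9
  have hF2 : ∀ i j, i ≠ u → i ≠ v → j ≠ u → j ≠ v → i ≠ j → (F i * F j) ^ 2 = 1 := by
    intro i j h1 h2 h3 h4 h5
    have h7 : (F i * F j) ^ 2 = ((φ ((g i * g j) ^ 2) : alternatingGroup α) : Perm α) := by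
      rw [hF, hF, map_pow, map_mul]
      rfl
    have h8 : (g i * g j) ^ 2 = 1 := by
      apply Subtype.ext
      rw [Subgroup.coe_pow, Subgroup.coe_mul, hg i h1 h2, hg j h3 h4, Subgroup.coe_one]
      ext x
      rw [pow_two, Perm.mul_apply, Perm.mul_apply, Perm.mul_apply, Perm.one_apply]
      by_cases e1 : x = u
      · subst e1
        rw [c3_left huv h3.symm, c3_mid h2.symm h1.symm, c3_other h1 h2 h5, c3_right]
      by_cases e2 : x = v
      · subst e2
        rw [c3_mid h4.symm h3.symm, c3_other h3 h4 h5.symm, c3_right, c3_left huv h1.symm]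
      by_cases e3 : x = i
      · subst e3
        rw [c3_other h1 h2 h5, c3_right, c3_left huv h3.symm, c3_mid h2.symm h1.symm]
      by_cases e4 : x = j
      · subst e4
        rw [c3_right, c3_left huv h1.symm, c3_mid h4.symm h3.symm, c3_other h3 h4 h5.symm]
      · rw [c3_other e1 e2 e4, c3_other e1 e2 e3, c3_other e1 e2 e4, c3_other e1 e2 e3]
    rw [h7, h8, map_one]
    rfl
  -- the common edge
  obtain ⟨a, ha1, ha2⟩ := share (hF3 i0 hui hvi) (hF3 j0 huj hvj)
    (hF1 i0 j0 hui hvi huj hvj hij) (hF2 i0 j0 hui hvi huj hvj hij)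
  obtain ⟨b, hb⟩ : ∃ b, b = F i0 a := ⟨_, rfl⟩
  obtain ⟨c, hc⟩ : ∃ c, c = F i0 b := ⟨_, rfl⟩
  obtain ⟨d, hd⟩ : ∃ d, d = F j0 b := ⟨_, rfl⟩
  have hab : a ≠ b := by rw [hb]; exact ha2.symm
  have hjb : F j0 a = b := by rw [hb, ha1]
  obtain ⟨p1, p2, p3, p4⟩ := thr (hF3 i0 hui hvi) ha2
  rw [← hb, ← hc] at p1 p2 p3 p4
  obtain ⟨q1, q2, q3, q4⟩ := thr (hF3 j0 huj hvj) (show F j0 a ≠ a by rw [hjb]; exact hab.symm)
  rw [hjb, ← hd] at q1 q2 q3 q4
  have hcd : c ≠ d := by
    intro hcd
    apply hFne i0 j0 hui hvi huj hvj hij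
    rw [thr_eq (hF3 i0 hui hvi) ha2, thr_eq (hF3 j0 huj hvj)
      (show F j0 a ≠ a by rw [hjb]; exact hab.symm), hjb, ← hb, ← hc, ← hd, hcd]
  have hall : ∀ l, l ≠ u → l ≠ v → F l a = b := by
    intro l hl1 hl2
    by_cases hli : l = i0
    · rw [hli, hb]
    by_cases hlj : l = j0
    · rw [hlj, hjb]
    obtain ⟨p, hp1, hp2⟩ := share (hF3 i0 hui hvi) (hF3 l hl1 hl2)
      (hF1 i0 l hui hvi hl1 hl2 (Ne.symm hli)) (hF2 i0 l hui hvi hl1 hl2 (Ne.symm hli))
    obtain ⟨q, hq1, hq2⟩ := share (hF3 j0 huj hvj) (hF3 l hl1 hl2)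
      (hF1 j0 l huj hvj hl1 hl2 (Ne.symm hlj)) (hF2 j0 l huj hvj hl1 hl2 (Ne.symm hlj))
    by_cases hpa : p = a
    · rw [← hpa, ← hp1, hpa, hb]
    by_cases hqa : q = a
    · rw [← hqa, ← hq1, hqa, hjb]
    exfalso
    have hpp : p = b ∨ p = c := by
      by_contra hcon
      push Not at hcon
      exact hp2 (p4 p hpa hcon.1 hcon.2)
    have hqq : q = b ∨ q = d := by
      by_contra hcon
      push Not at hcon
      exact hq2 (q4 q hqa hcon.1 hcon.2)
    have hL := hF3 l hl1 hl2
    rcases hpp with hpp | hpp <;> rcases hqq with hqq | hqq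
    · -- both `b`
      rw [hpp, ← hc] at hp1
      rw [hqq, ← hd] at hq1
      exact hcd (hp1.trans hq1.symm)
    · -- `F l b = c`, `F l d = a`
      rw [hpp, ← hc] at hp1
      rw [hqq, q1] at hq1
      have hmove : F l b ≠ b := by rw [← hp1]; exact p2
      obtain ⟨r1, r2, r3, r4⟩ := thr hL hmove
      have hdm : F l d ≠ d := by rw [← hq1]; exact q3.symm
      have ham : F l a ≠ a := by
        intro h9
        apply q3
        apply (F l).injective
        rw [← hq1, h9]
      rw [← hp1] at r4
      have h10 : d = F l c := by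
        by_contra hcon
        exact hdm (r4 d q2 (Ne.symm hcd) hcon)
      have h11 : a = F l c := by
        by_contra hcon
        exact ham (r4 a hab p3.symm hcon)
      exact q3 (h10.trans h11.symm)
    · -- `F l c = a`, `F l b = d`
      rw [hpp, p1] at hp1
      rw [hqq, ← hd] at hq1
      have hmove : F l b ≠ b := by rw [← hq1]; exact q2
      obtain ⟨r1, r2, r3, r4⟩ := thr hL hmove
      have hcm : F l c ≠ c := by rw [← hp1]; exact p3.symm
      have ham : F l a ≠ a := by
        intro h9
        apply p3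
        apply (F l).injective
        rw [← hp1, h9]
      rw [← hq1] at r4
      have h10 : c = F l d := by
        by_contra hcon
        exact hcm (r4 c p2 hcd hcon)
      have h11 : a = F l d := by
        by_contra hcon
        exact ham (r4 a hab q3.symm hcon)
      exact p3 (h10.trans h11.symm)
    · -- both `a`
      rw [hpp, p1] at hp1
      rw [hqq, q1] at hq1
      exact hcd ((F l).injective (hp1.symm.trans hq1))
  have hmv : ∀ l, l ≠ u → l ≠ v → F l a ≠ a := by
    intro l h1 h2
    rw [hall l h1 h2]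
    exact hab.symm
  have hform : ∀ l, l ≠ u → l ≠ v → F l = c3 a b (F l b) := by
    intro l h1 h2
    have h3 := thr_eq (hF3 l h1 h2) (hmv l h1 h2)
    rwa [hall l h1 h2] at h3
  have hfb : ∀ l, l ≠ u → l ≠ v → F l b ≠ b ∧ F l b ≠ a := by
    intro l h1 h2
    obtain ⟨_, r2, r3, _⟩ := thr (hF3 l h1 h2) (hmv l h1 h2)
    rw [hall l h1 h2] at r2 r3
    exact ⟨r2, r3⟩
  -- the permutation
  obtain ⟨s0, hs0⟩ : ∃ s0 : α → α, ∀ x, s0 x = if x = u then a else if x = v then b else F x b :=
    ⟨_, fun _ => rfl⟩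
  have hsu : s0 u = a := by rw [hs0, if_pos rfl]
  have hsv : s0 v = b := by rw [hs0, if_neg huv.symm, if_pos rfl]
  have hsi : ∀ i, i ≠ u → i ≠ v → s0 i = F i b := by
    intro i h1 h2
    rw [hs0, if_neg h1, if_neg h2]
  have hs0inj : Function.Injective s0 := by
    intro x y hxy
    by_cases hx1 : x = u
    · by_cases hy1 : y = u
      · rw [hx1, hy1]
      by_cases hy2 : y = v
      · rw [hx1, hy2, hsu, hsv] at hxy
        exact absurd hxy hab
      · rw [hx1, hsu, hsi y hy1 hy2] at hxy
        exact absurd hxy.symm (hfb y hy1 hy2).2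
    by_cases hx2 : x = v
    · by_cases hy1 : y = u
      · rw [hx2, hy1, hsu, hsv] at hxy
        exact absurd hxy.symm hab
      by_cases hy2 : y = v
      · rw [hx2, hy2]
      · rw [hx2, hsv, hsi y hy1 hy2] at hxy
        exact absurd hxy.symm (hfb y hy1 hy2).1
    · by_cases hy1 : y = u
      · rw [hy1, hsu, hsi x hx1 hx2] at hxy
        exact absurd hxy (hfb x hx1 hx2).2
      by_cases hy2 : y = v
      · rw [hy2, hsv, hsi x hx1 hx2] at hxy
        exact absurd hxy (hfb x hx1 hx2).1
      · rw [hsi x hx1 hx2, hsi y hy1 hy2] at hxy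
        by_contra hne
        apply hFne x y hx1 hx2 hy1 hy2 hne
        rw [hform x hx1 hx2, hform y hy1 hy2, hxy]
  obtain ⟨s, hs⟩ : ∃ s : Perm α, ∀ x, s x = s0 x :=
    ⟨Equiv.ofBijective s0 (Finite.injective_iff_bijective.1 hs0inj), fun _ => rfl⟩
  refine ⟨s, ?_⟩
  let f1 : alternatingGroup α →* Perm α := (alternatingGroup α).subtype.comp φ.toMonoidHom
  let f2 : alternatingGroup α →* Perm α :=
    (MulAut.conj s).toMonoidHom.comp (alternatingGroup α).subtype
  have hK : alternatingGroup α ≤ (f1.eqLocus f2).map (alternatingGroup α).subtype := by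
    apply t3_univ
    have h1 : ∀ i, i ≠ u → i ≠ v → c3 u v i ∈
        (f1.eqLocus f2).map (alternatingGroup α).subtype := by
      intro i h1 h2
      refine ⟨g i, ?_, hg i h1 h2⟩
      change ((φ (g i) : alternatingGroup α) : Perm α) = s * (g i : Perm α) * s⁻¹
      rw [← hF, hg i h1 h2, c3_conj, hs, hs, hs, hsu, hsv, hsi i h1 h2]
      exact hform i h1 h2
    have h2 := gen huv h1 ((Finset.univ.erase u).erase v) (by
      intro i hi
      rw [Finset.mem_erase, Finset.mem_erase] at hi
      exact ⟨hi.2.1, hi.1⟩) ⟨i0, by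
        rw [Finset.mem_erase, Finset.mem_erase]
        exact ⟨hvi, hui, Finset.mem_univ _⟩⟩
    have h3 : insert u (insert v ((Finset.univ.erase u).erase v)) = (Finset.univ : Finset α) := by
      ext z
      simp only [Finset.mem_insert, Finset.mem_erase, Finset.mem_univ, and_true, iff_true]
      tauto
    rwa [h3] at h2
  intro x
  obtain ⟨y, hy1, hy2⟩ := hK x.2
  have hyx : y = x := Subtype.ext hy2
  rw [hyx] at hy1
  exact hy1

end Pool.Agent.Helper54.AN
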