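import Pool.Agent.Helper54.AN.Aut1
import Pool.Agent.Helper54.AN.Aut2
import Pool.Agent.Helper54.AN.Alt

/-!
# AN-11: automorphisms of order p of alternating groups

PROOF.
* `aut_inner_alt`: `aut_three_cycle` (`p` is odd) and `aut_conj` give `s : Perm α` with `φ g = s g s⁻¹`.  `φ^p = 1`, so `s^p`
  commutes with all elements of the alternating group, so it is `1` (it commutes with all 3-cycles; `n ≥ 5`), so the order of
  `s` is odd and `s` is even: `s ∈ alternatingGroup α`, `φ = MulAut.conj s`; `s ≠ 1`, so `orderOf s = p`.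
* `aa_alt`: by `ra_aut` we may assume `S = alternatingGroup α`; `aut_inner_alt`, `realAct_alt` and `aa_of_inner`
  (`alternatingGroup.center_eq_bot`).
-/

set_option autoImplicit false
open scoped Pointwise
open Pool.Agent.Helper54.PW Pool.Agent.Helper54.RT

namespace Pool.Agent.Helper54.AN

private theorem a3_central {α : Type} [Fintype α] [DecidableEq α] (hα : 5 ≤ Fintype.card α)
    (t : Equiv.Perm α) (ht : ∀ g : alternatingGroup α, t * g = g * t) : t = 1 := by
  by_contra hne
  obtain ⟨a, ha⟩ : ∃ a, t a ≠ a := by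
    by_contra hcon
    push Not at hcon
    exact hne (Equiv.ext hcon)
  obtain ⟨c, hc⟩ : ∃ c, c ∉ ({a, t a} : Finset α) := by
    by_contra hcon
    push Not at hcon
    have h1 : (Finset.univ : Finset α) ⊆ {a, t a} := fun x _ => hcon x
    have h2 := Finset.card_le_card h1
    have h3 : ({a, t a} : Finset α).card ≤ 2 := Finset.card_le_two
    rw [Finset.card_univ] at h2
    omega
  obtain ⟨d, hd⟩ : ∃ d, d ∉ ({a, t a, c} : Finset α) := by
    by_contra hcon
    push Not at hcon
    have h1 : (Finset.univ : Finset α) ⊆ {a, t a, c} := fun x _ => hcon x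
    have h2 := Finset.card_le_card h1
    have h3 : ({a, t a, c} : Finset α).card ≤ 3 := Finset.card_le_three
    rw [Finset.card_univ] at h2
    omega
  simp only [Finset.mem_insert, Finset.mem_singleton, not_or] at hc hd
  obtain ⟨hca, hcb⟩ := hc
  obtain ⟨hda, hdb, hdc⟩ := hd
  have hg : Equiv.swap a c * Equiv.swap a d ∈ alternatingGroup α := by
    rw [Equiv.Perm.mem_alternatingGroup, map_mul, Equiv.Perm.sign_swap (Ne.symm hca),
      Equiv.Perm.sign_swap (Ne.symm hda)]
    rfl
  have h1 := congrArg (fun f : Equiv.Perm α => f a) (ht ⟨_, hg⟩)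
  simp only [Equiv.Perm.coe_mul, Function.comp_apply, Equiv.swap_apply_left] at h1
  rw [Equiv.swap_apply_of_ne_of_ne hda hdc, Equiv.swap_apply_of_ne_of_ne ha (Ne.symm hdb),
    Equiv.swap_apply_of_ne_of_ne ha (Ne.symm hcb)] at h1
  exact hda (t.injective h1)

theorem aut_inner_alt {p : ℕ} [Fact p.Prime] (hp5 : 5 ≤ p) {α : Type} [Fintype α]
    [DecidableEq α] (hα : 5 ≤ Fintype.card α) (φ : MulAut (alternatingGroup α))
    (hφ : orderOf φ = p) : ∃ s : alternatingGroup α, orderOf s = p ∧ φ = MulAut.conj s := by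
  have hpp : p.Prime := Fact.out
  have hodd : Odd p := hpp.odd_of_ne_two (by omega)
  obtain ⟨s, hs⟩ := aut_conj hα φ (fun g hg => aut_three_cycle hα φ (by rw [hφ]; exact hodd) g hg)
  have hpow : ∀ (n : ℕ) (g : alternatingGroup α),
      (((φ ^ n) g : alternatingGroup α) : Equiv.Perm α) = s ^ n * g * (s ^ n)⁻¹ := by
    intro n
    induction n with
    | zero =>
      intro g
      rw [pow_zero, pow_zero, inv_one, mul_one, one_mul]
      rfl
    | succ n ih =>
      intro g
      have h1 : (φ ^ (n + 1)) g = (φ ^ n) (φ g) := by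
        rw [pow_succ]
        rfl
      rw [h1, ih, hs, pow_succ]
      group
  have hφp : φ ^ p = 1 := by
    rw [← hφ]
    exact pow_orderOf_eq_one φ
  have hsp : s ^ p = 1 := by
    apply a3_central hα
    intro g
    have h1 := hpow p g
    rw [hφp] at h1
    have h2 : (((1 : MulAut (alternatingGroup α)) g : alternatingGroup α) : Equiv.Perm α) = g := rfl
    rw [h2] at h1
    have h3 : (g : Equiv.Perm α) * s ^ p = s ^ p * g * (s ^ p)⁻¹ * s ^ p := by rw [← h1]
    rw [h3, inv_mul_cancel_right]
  have hsign : s ∈ alternatingGroup α := by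
    rw [Equiv.Perm.mem_alternatingGroup]
    have h1 : Equiv.Perm.sign s ^ p = 1 := by rw [← map_pow, hsp, map_one]
    rcases Int.units_eq_one_or (Equiv.Perm.sign s) with h2 | h2
    · exact h2
    · rw [h2, hodd.neg_one_pow] at h1
      exact absurd h1 (by decide)
  have hconj : φ = MulAut.conj (⟨s, hsign⟩ : alternatingGroup α) := by
    ext g : 1
    apply Subtype.ext
    rw [hs g]
    rfl
  refine ⟨⟨s, hsign⟩, ?_, hconj⟩
  apply orderOf_eq_prime
  · exact Subtype.ext hsp
  · intro h1
    rw [h1, map_one] at hconj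
    rw [hconj, orderOf_one] at hφ
    omega

theorem aa_alt {p : ℕ} [Fact p.Prime] (hp5 : 5 ≤ p) {k : Type} [Field k]
    [IsAlgClosed k] [CharP k p] {α : Type} [Fintype α] [DecidableEq α]
    (hα : 5 ≤ Fintype.card α) {S : Type} [Group S] (e : S ≃* alternatingGroup α)
    (φ : MulAut S) (hφ : orderOf φ = p) : AA k φ := by
  rw [ra_aut e φ (MulAut.congr e φ) (fun g => by simp [MulAut.congr])]
  obtain ⟨s, hs, hsφ⟩ := aut_inner_alt hp5 hα (MulAut.congr e φ)
    (by rw [MulEquiv.orderOf_eq, hφ])
  rw [hsφ]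
  apply aa_of_inner
  · apply alternatingGroup.center_eq_bot
    rw [Nat.card_eq_fintype_card]
    omega
  · exact realAct_alt hp5 s hs

end Pool.Agent.Helper54.AN
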