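import Pool.Agent.Helper54.TJ.Defs

/-!
# AN-01: the projective line

PROOF.  `SL_2(ZMod p)` acts on the projective line over `ZMod p` (Mathlib: `Projectivization` with the action of
`Matrix.SpecialLinearGroup`, LinearAlgebra/Projectivization/Action.lean, its cardinality in
Projectivization/Cardinality.lean; or the action of `GL` on `OnePoint K`), which has `p + 1` points; number the points so that
the point fixed by `U1 p` (`1 1; 0 1`) is `Fin.last p`.  This gives a homomorphism to `Equiv.Perm (Fin (p + 1))`.  The image is in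
the alternating group because `SL_2` is generated by transvections, which have odd order `p` (the sign of an element of odd
order is `1`).  `U1 p` has order `p` and acts nontrivially, so its image has order `p`.  The action is transitive.
-/

set_option autoImplicit false

namespace Pool.Agent.Helper54.TJ

section kapaux
open Matrix OnePoint

namespace Kap

variable {p : ℕ} [Fact p.Prime]

/-- upper unipotent -/
def uU (x : ZMod p) : SpecialLinearGroup (Fin 2) (ZMod p) := ⟨!![1, x; 0, 1], by simp [det_fin_two]⟩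
/-- lower unipotent -/
def uL (x : ZMod p) : SpecialLinearGroup (Fin 2) (ZMod p) := ⟨!![1, 0; x, 1], by simp [det_fin_two]⟩

theorem uU_add (x y : ZMod p) : uU (x + y) = uU x * uU y := by
  apply Subtype.ext
  change !![1, x + y; 0, 1] = !![1, x; 0, 1] * !![1, y; 0, 1]
  rw [mul_fin_two]
  simp [add_comm]

theorem uL_add (x y : ZMod p) : uL (x + y) = uL x * uL y := by
  apply Subtype.ext
  change !![1, 0; x + y, 1] = !![1, 0; x, 1] * !![1, 0; y, 1]
  rw [mul_fin_two]
  simp

theorem uU_zero : uU (0 : ZMod p) = 1 := by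
  apply Subtype.ext
  change !![1, 0; 0, 1] = (1 : Matrix (Fin 2) (Fin 2) (ZMod p))
  rw [one_fin_two]

theorem uL_zero : uL (0 : ZMod p) = 1 := by
  apply Subtype.ext
  change !![1, 0; 0, 1] = (1 : Matrix (Fin 2) (Fin 2) (ZMod p))
  rw [one_fin_two]

theorem uU_pow (x : ZMod p) (n : ℕ) : uU x ^ n = uU ((n : ZMod p) * x) := by
  induction n with
  | zero => rw [pow_zero, Nat.cast_zero, zero_mul, uU_zero]
  | succ n ih => rw [pow_succ, ih, ← uU_add]; push_cast; ring_nf

theorem uL_pow (x : ZMod p) (n : ℕ) : uL x ^ n = uL ((n : ZMod p) * x) := by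
  induction n with
  | zero => rw [pow_zero, Nat.cast_zero, zero_mul, uL_zero]
  | succ n ih => rw [pow_succ, ih, ← uL_add]; push_cast; ring_nf

theorem gen_ne (g : SpecialLinearGroup (Fin 2) (ZMod p)) (hc : g.1 1 0 ≠ 0) :
    g = uU ((g.1 0 0 - 1) / g.1 1 0) * uL (g.1 1 0) * uU ((g.1 1 1 - 1) / g.1 1 0) := by
  have hd : g.1 0 0 * g.1 1 1 - g.1 0 1 * g.1 1 0 = 1 := by
    have := g.2
    rwa [det_fin_two] at this
  apply Subtype.ext
  change g.1 = !![1, (g.1 0 0 - 1) / g.1 1 0; 0, 1] * !![1, 0; g.1 1 0, 1] *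
    !![1, (g.1 1 1 - 1) / g.1 1 0; 0, 1]
  rw [mul_fin_two, mul_fin_two]
  ext i j
  fin_cases i <;> fin_cases j
  · simp
    field_simp
    ring
  · simp
    field_simp
    linear_combination -hd
  · simp
  · simp
    field_simp
    ring

theorem hom_trivial (hp5 : 5 ≤ p) (φ : SpecialLinearGroup (Fin 2) (ZMod p) →* ℤˣ)
    (g : SpecialLinearGroup (Fin 2) (ZMod p)) : φ g = 1 := by
  have hp : p.Prime := Fact.out
  have hodd : Odd p := hp.odd_of_ne_two (by omega)
  have key : ∀ u : ℤˣ, u ^ p = 1 → u = 1 := by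
    intro u hu
    rcases Int.units_eq_one_or u with h | h
    · exact h
    · rw [h, hodd.neg_one_pow] at hu
      exact absurd hu (by decide)
  have hU : ∀ x, φ (uU x) = 1 := fun x => key _ (by
    rw [← map_pow, uU_pow, CharP.cast_eq_zero, zero_mul, uU_zero, map_one])
  have hL : ∀ x, φ (uL x) = 1 := fun x => key _ (by
    rw [← map_pow, uL_pow, CharP.cast_eq_zero, zero_mul, uL_zero, map_one])
  have h1 : ∀ g : SpecialLinearGroup (Fin 2) (ZMod p), g.1 1 0 ≠ 0 → φ g = 1 := by
    intro g hg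
    rw [gen_ne g hg, map_mul, map_mul, hU, hL, hU, one_mul, one_mul]
  by_cases hg : g.1 1 0 = 0
  · have hd : g.1 0 0 * g.1 1 1 - g.1 0 1 * g.1 1 0 = 1 := by
      have := g.2
      rwa [det_fin_two] at this
    have h2 : (g * uL 1).1 1 0 ≠ 0 := by
      have : (g * uL 1).1 1 0 = g.1 1 0 + g.1 1 1 := by
        change (g.1 * (!![1, 0; 1, 1] : Matrix (Fin 2) (Fin 2) (ZMod p))) 1 0 = _
        rw [Matrix.mul_apply, Fin.sum_univ_two]
        simp
      rw [this, hg, zero_add]
      intro h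
      rw [hg, h] at hd
      simp at hd
    have h3 := h1 _ h2
    rwa [map_mul, hL, mul_one] at h3
  · exact h1 g hg

/-- the action on the projective line -/
noncomputable def act : SpecialLinearGroup (Fin 2) (ZMod p) →* Equiv.Perm (OnePoint (ZMod p)) :=
  (MulAction.toPermHom (GL (Fin 2) (ZMod p)) (OnePoint (ZMod p))).comp
    (SpecialLinearGroup.toGL)

theorem act_infty (g : SpecialLinearGroup (Fin 2) (ZMod p)) :
    act g (∞ : OnePoint (ZMod p)) = if g.1 1 0 = 0 then ∞ else ((g.1 0 0 / g.1 1 0 : ZMod p) : OnePoint (ZMod p)) := by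
  exact smul_infty_eq_ite _

theorem act_coe (g : SpecialLinearGroup (Fin 2) (ZMod p)) (k : ZMod p) :
    act g (k : OnePoint (ZMod p)) = if g.1 1 0 * k + g.1 1 1 = 0 then ∞ else
      (((g.1 0 0 * k + g.1 0 1) / (g.1 1 0 * k + g.1 1 1) : ZMod p) : OnePoint (ZMod p)) := by
  exact smul_some_eq_ite

/-- the numbering of the projective line -/
noncomputable def num : OnePoint (ZMod p) ≃ Fin (p + 1) :=
  (Equiv.optionCongr (ZMod.finEquiv p).toEquiv.symm).trans finSuccEquivLast.symm

theorem num_infty : num (∞ : OnePoint (ZMod p)) = Fin.last p := by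
  exact finSuccEquivLast_symm_none

end Kap

theorem gta_kappa {p : ℕ} [Fact p.Prime] (hp5 : 5 ≤ p) :
    ∃ κ : Matrix.SpecialLinearGroup (Fin 2) (ZMod p) →*
      alternatingGroup (Fin (p + 1)), orderOf (κ (U1 p)) = p ∧
      ((κ (U1 p) : alternatingGroup (Fin (p + 1))) : Equiv.Perm (Fin (p + 1))) (Fin.last p) =
        Fin.last p ∧
      ∀ a b : Fin (p + 1), ∃ g,
        ((κ g : alternatingGroup (Fin (p + 1))) : Equiv.Perm (Fin (p + 1))) a = b := by
  classical
  have hp : p.Prime := Fact.out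
  have hU1 : U1 p = Kap.uU 1 := rfl
  rw [hU1]
  obtain ⟨κ0, hκ0⟩ : ∃ κ0 : Matrix.SpecialLinearGroup (Fin 2) (ZMod p) →* Equiv.Perm (Fin (p + 1)),
      ∀ g x, κ0 g x = Kap.num (Kap.act g (Kap.num.symm x)) :=
    ⟨(Kap.num.permCongrHom : Equiv.Perm (OnePoint (ZMod p)) ≃* Equiv.Perm (Fin (p + 1))).toMonoidHom.comp
      Kap.act, fun g x => rfl⟩
  have hsign : ∀ g, κ0 g ∈ alternatingGroup (Fin (p + 1)) := fun g => by
    rw [Equiv.Perm.mem_alternatingGroup]
    exact Kap.hom_trivial hp5 (Equiv.Perm.sign.comp κ0) g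
  obtain ⟨κ, hκ⟩ : ∃ κ : Matrix.SpecialLinearGroup (Fin 2) (ZMod p) →* alternatingGroup (Fin (p + 1)),
      ∀ g, ((κ g : alternatingGroup (Fin (p + 1))) : Equiv.Perm (Fin (p + 1))) = κ0 g :=
    ⟨κ0.codRestrict _ hsign, fun g => rfl⟩
  refine ⟨κ, ?_, ?_, ?_⟩
  · refine orderOf_eq_prime ?_ ?_
    · rw [← map_pow, Kap.uU_pow, CharP.cast_eq_zero, zero_mul, Kap.uU_zero, map_one]
    · intro h
      have h1 : κ0 (Kap.uU 1) (Kap.num ((0 : ZMod p) : OnePoint (ZMod p))) =
          Kap.num ((0 : ZMod p) : OnePoint (ZMod p)) := by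
        rw [← hκ, h]; rfl
      rw [hκ0, Equiv.symm_apply_apply] at h1
      have h2 := Kap.num.injective h1
      rw [Kap.act_coe] at h2
      simp [Kap.uU] at h2
  · rw [hκ, hκ0, ← Kap.num_infty, Equiv.symm_apply_apply, Kap.act_infty]
    simp [Kap.uU]
  · have key : ∀ y : OnePoint (ZMod p), ∃ g, Kap.act g (∞ : OnePoint (ZMod p)) = y := by
      intro y
      induction y using OnePoint.rec with
      | infty => exact ⟨1, by rw [map_one]; rfl⟩
      | coe k =>
        have e := Kap.act_infty (⟨!![k, -1; 1, 0], by simp [det_fin_two]⟩ :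
          SpecialLinearGroup (Fin 2) (ZMod p))
        refine ⟨_, e.trans ?_⟩
        simp
    intro a b
    obtain ⟨g, hg⟩ := key (Kap.num.symm a)
    obtain ⟨h, hh⟩ := key (Kap.num.symm b)
    refine ⟨h * g⁻¹, ?_⟩
    rw [hκ, hκ0, map_mul, map_inv, Equiv.Perm.mul_apply, ← hg, Equiv.Perm.coe_inv, Equiv.symm_apply_apply, hh,
      Equiv.apply_symm_apply]

end kapaux

end Pool.Agent.Helper54.TJ
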